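import Mathlib

/-! A superharmonicity argument: the distribution function is star shaped. -/

set_option autoImplicit false

namespace Pool.Agent.Y974.SV

open MeasureTheory ProbabilityTheory

lemma int_pow (k : ℕ) : Integrable (fun g : ℝ => g ^ k) (gaussianReal 0 1) := by
  have h : (0 : ℝ) ∈ interior (integrableExpSet (fun x : ℝ => x) (gaussianReal 0 1)) := by
    rw [integrableExpSet_fun_id_gaussianReal, interior_univ]
    exact Set.mem_univ _
  exact integrable_pow_of_mem_interior_integrableExpSet h k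

lemma mom1 : ∫ g : ℝ, g ∂(gaussianReal 0 1) = 0 := integral_id_gaussianReal

lemma mom2 : ∫ g : ℝ, g ^ 2 ∂(gaussianReal 0 1) = 1 := by
  have h := variance_fun_id_gaussianReal (μ := 0) (v := 1)
  rw [variance_of_integral_eq_zero (by fun_prop) mom1] at h
  simpa using h

lemma int_poly1 (a b d e : ℝ) :
    Integrable (fun g : ℝ => a - b * g + d * g ^ 2 - e * g ^ 4) (gaussianReal 0 1) := by
  have i1 : Integrable (fun g : ℝ => g) (gaussianReal 0 1) := by
    simpa using int_pow 1
  exact (((integrable_const _).sub (i1.const_mul _)).add ((int_pow 2).const_mul _)).sub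
    ((int_pow 4).const_mul _)

lemma int_poly (a b d e : ℝ) :
    ∫ g : ℝ, (a - b * g + d * g ^ 2 - e * g ^ 4) ∂(gaussianReal 0 1)
      = a + d - e * ∫ g : ℝ, g ^ 4 ∂(gaussianReal 0 1) := by
  have i1 : Integrable (fun g : ℝ => b * g) (gaussianReal 0 1) := by
    have : Integrable (fun g : ℝ => g) (gaussianReal 0 1) := by simpa using int_pow 1
    exact this.const_mul _
  have i2 : Integrable (fun g : ℝ => d * g ^ 2) (gaussianReal 0 1) := (int_pow 2).const_mul _
  have i4 : Integrable (fun g : ℝ => e * g ^ 4) (gaussianReal 0 1) := (int_pow 4).const_mul _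
  have i0 : Integrable (fun _ : ℝ => a) (gaussianReal 0 1) := integrable_const _
  have i01 : Integrable (fun g : ℝ => a - b * g) (gaussianReal 0 1) := i0.sub i1
  have i02 : Integrable (fun g : ℝ => a - b * g + d * g ^ 2) (gaussianReal 0 1) := i01.add i2
  rw [integral_sub i02 i4, integral_add i01 i2, integral_sub i0 i1, integral_const_mul,
    integral_const_mul, integral_const_mul, mom1, mom2]
  simp

/-- The abstract star shape lemma. -/
theorem star (U : ℝ → ℝ) (V : ℝ → ℝ → ℝ) (hU0 : U 0 = 0) (hlsc : LowerSemicontinuous U)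
    (hUn : ∀ x, 0 ≤ U x) (hV0 : ∀ y z, 0 ≤ V y z) (hV1 : ∀ y z, V y z ≤ 1)
    (hVU : ∀ y z, |z| < y → U (y - z) ≤ V y z) (hVm : ∀ y, Measurable (V y))
    (hH : ∀ y, 0 < y → ∀ c, 0 < c → c < 1 → ∫ g, V y (c * g) ∂(gaussianReal 0 1) ≤ U y) :
    ∀ y, 0 < y → ∀ l, 0 < l → l < 1 → l * U y ≤ U (l * y) := by
  intro y hy l hl hl1
  by_contra hcon
  push Not at hcon
  set D := l * U y - U (l * y) with hD
  have hD0 : 0 < D := by rw [hD]; linarith
  obtain ⟨κ, hκ⟩ : ∃ κ, κ = D / y ^ 2 := ⟨_, rfl⟩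
  have hκ0 : 0 < κ := by rw [hκ]; positivity
  set p : ℝ → ℝ := fun x => x / y * U y + κ * (x * (x - y)) with hp
  have hw : LowerSemicontinuous (fun x => U x - p x) := by
    have h1 : LowerSemicontinuous (fun x => - p x) := by
      apply Continuous.lowerSemicontinuous
      rw [hp]
      fun_prop
    have h2 := hlsc.add h1
    have h3 : (fun x => U x - p x) = fun x => U x + -p x := by
      ext x
      ring
    rw [h3]
    exact h2
  obtain ⟨x0, hx0, hmin⟩ := (hw.lowerSemicontinuousOn (Set.Icc 0 y)).exists_isMinOn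
    ⟨0, Set.left_mem_Icc.2 hy.le⟩ isCompact_Icc
  have hmin' : ∀ x ∈ Set.Icc 0 y, U x0 - p x0 ≤ U x - p x := fun x hx => hmin hx
  have hwl : U (l * y) - p (l * y) < 0 := by
    have e : p (l * y) = l * U y - l * (1 - l) * D := by
      rw [hp, hκ]
      field_simp
      ring
    rw [e]
    have : 0 < D * (1 - l + l ^ 2) := mul_pos hD0 (by nlinarith)
    nlinarith
  have hly : l * y ∈ Set.Icc 0 y := ⟨by positivity, by nlinarith⟩
  have hneg : U x0 - p x0 < 0 := lt_of_le_of_lt (hmin' _ hly) hwl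
  have hx00 : x0 ≠ 0 := by
    rintro rfl
    rw [hU0, hp] at hneg
    simp at hneg
  have hx0y : x0 ≠ y := by
    intro h
    rw [h, hp] at hneg
    simp only at hneg
    rw [div_self hy.ne'] at hneg
    simp at hneg
  have hx0p : 0 < x0 := lt_of_le_of_ne hx0.1 (Ne.symm hx00)
  have hx0l : x0 < y := lt_of_le_of_ne hx0.2 hx0y
  set ρ := min x0 (y - x0) / 2 with hρ
  have hmn : 0 < min x0 (y - x0) := lt_min hx0p (by linarith)
  have hρ0 : 0 < ρ := by rw [hρ]; linarith
  have hρ1 : ρ < x0 := by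
    have := min_le_left x0 (y - x0)
    rw [hρ]; linarith
  have hρ2 : ρ < y - x0 := by
    have := min_le_right x0 (y - x0)
    rw [hρ]; linarith
  obtain ⟨B, hB⟩ : ∃ B, B = U y / y + κ * (2 * x0 - y) := ⟨_, rfl⟩
  obtain ⟨C, hC⟩ : ∃ C, C = U x0 / ρ ^ 4 + |B| / ρ ^ 3 + κ / ρ ^ 2 := ⟨_, rfl⟩
  have hC0 : 0 ≤ C := by
    have := hUn x0
    rw [hC]
    positivity
  have hlow : ∀ z : ℝ, U x0 - B * z + κ * z ^ 2 - C * z ^ 4 ≤ V x0 z := by
    intro z
    rcases le_or_gt |z| ρ with hz | hz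
    · have hz' := abs_le.1 hz
      have h1 := hVU x0 z (lt_of_le_of_lt hz hρ1)
      have h2 := hmin' (x0 - z) ⟨by linarith, by linarith⟩
      have h3 : p (x0 - z) - p x0 = - B * z + κ * z ^ 2 := by
        rw [hp, hB]
        simp only
        field_simp
        ring
      have h4 : 0 ≤ C * z ^ 4 := by positivity
      linarith
    · have hz0 : 0 < |z| := hρ0.trans hz
      refine le_trans ?_ (hV0 x0 z)
      have e4 : z ^ 4 = |z| ^ 4 := by rw [← abs_pow]; exact (abs_of_nonneg (by positivity)).symm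
      have e2 : z ^ 2 = |z| ^ 2 := (sq_abs z).symm
      have t := hz.le
      have h1 : U x0 ≤ U x0 / ρ ^ 4 * |z| ^ 4 := by
        rw [div_mul_eq_mul_div, le_div_iff₀ (by positivity)]
        exact mul_le_mul_of_nonneg_left (pow_le_pow_left₀ hρ0.le t 4) (hUn x0)
      have h2 : |B| * |z| ≤ |B| / ρ ^ 3 * |z| ^ 4 := by
        rw [div_mul_eq_mul_div, le_div_iff₀ (by positivity), mul_assoc]
        apply mul_le_mul_of_nonneg_left _ (abs_nonneg B)
        calc |z| * ρ ^ 3 ≤ |z| * |z| ^ 3 :=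
              mul_le_mul_of_nonneg_left (pow_le_pow_left₀ hρ0.le t 3) hz0.le
          _ = |z| ^ 4 := by ring
      have h3 : κ * |z| ^ 2 ≤ κ / ρ ^ 2 * |z| ^ 4 := by
        rw [div_mul_eq_mul_div, le_div_iff₀ (by positivity), mul_assoc]
        apply mul_le_mul_of_nonneg_left _ hκ0.le
        calc |z| ^ 2 * ρ ^ 2 ≤ |z| ^ 2 * |z| ^ 2 :=
              mul_le_mul_of_nonneg_left (pow_le_pow_left₀ hρ0.le t 2) (by positivity)
          _ = |z| ^ 4 := by ring
      have h4 : - (B * z) ≤ |B| * |z| := by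
        rw [← abs_mul]
        exact neg_le_abs _
      have h5 : C * z ^ 4 = U x0 / ρ ^ 4 * |z| ^ 4 + |B| / ρ ^ 3 * |z| ^ 4
          + κ / ρ ^ 2 * |z| ^ 4 := by
        rw [e4, hC]; ring
      rw [h5, e2]
      linarith
  -- integrate
  set m4 := ∫ g : ℝ, g ^ 4 ∂(gaussianReal 0 1) with hm4
  have hm40 : 0 ≤ m4 := integral_nonneg fun g => by positivity
  have hkey : ∀ c : ℝ, 0 < c → c < 1 → κ ≤ C * m4 * c ^ 2 := by
    intro c hc hc1
    have hfun : (fun g : ℝ => U x0 - B * (c * g) + κ * (c * g) ^ 2 - C * (c * g) ^ 4)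
          = fun g : ℝ => U x0 - (B * c) * g + (κ * c ^ 2) * g ^ 2 - (C * c ^ 4) * g ^ 4 := by
        ext g; ring
    have hI : Integrable (fun g : ℝ => U x0 - B * (c * g) + κ * (c * g) ^ 2 - C * (c * g) ^ 4)
        (gaussianReal 0 1) := by
      rw [hfun]
      exact int_poly1 _ _ _ _
    have hVI : Integrable (fun g : ℝ => V x0 (c * g)) (gaussianReal 0 1) := by
      refine Integrable.mono' (integrable_const (1 : ℝ))
        ((hVm x0).comp (measurable_const_mul c)).aestronglyMeasurable ?_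
      filter_upwards with g
      rw [Real.norm_eq_abs, abs_of_nonneg (hV0 _ _)]
      exact hV1 _ _
    have h1 := integral_mono hI hVI (fun g => hlow (c * g))
    have h2 : ∫ g : ℝ, (U x0 - B * (c * g) + κ * (c * g) ^ 2 - C * (c * g) ^ 4)
        ∂(gaussianReal 0 1) = U x0 + κ * c ^ 2 - C * c ^ 4 * m4 := by
      rw [hfun, int_poly]
    rw [h2] at h1
    have h3 := hH x0 hx0p c hc hc1
    have h4 : κ * c ^ 2 ≤ C * m4 * c ^ 2 * c ^ 2 := by nlinarith
    exact le_of_mul_le_mul_right h4 (by positivity)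
  have hK0 : 0 ≤ C * m4 := by positivity
  have hc0 : 0 < κ / (2 * (C * m4 + κ)) := by positivity
  have hc1 : κ / (2 * (C * m4 + κ)) < 1 := by
    rw [div_lt_one (by positivity)]
    nlinarith
  have h := hkey _ hc0 hc1
  set c := κ / (2 * (C * m4 + κ)) with hc
  have h2 : C * m4 * c ^ 2 ≤ C * m4 * c := by
    apply mul_le_mul_of_nonneg_left _ hK0
    nlinarith
  have h3 : C * m4 * c < κ := by
    rw [hc, mul_div_assoc', div_lt_iff₀ (by positivity)]
    nlinarith
  linarith

end Pool.Agent.Y974.SV
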