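import Pool.Agent.Y974.SV.Comp
import Pool.Agent.Y974.SV.Star

/-! The distribution function of the smallest singular value of `G` is star shaped. -/

set_option autoImplicit false

namespace Pool.Agent.Y974.SV

open Matrix MeasureTheory ProbabilityTheory Filter Topology

/-- The (left continuous) distribution function of `s_min(G)`. -/
noncomputable def UU (m : ℕ) (x : ℝ) : ℝ :=
  (g2 (m + 1) {G | Real.sqrt (qm (of G)) < x}).toReal

/-- The distribution function of `|s_min(G) + z|`. -/
noncomputable def VV (m : ℕ) (y z : ℝ) : ℝ :=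
  (g2 (m + 1) {G | |Real.sqrt (qm (of G)) + z| < y}).toReal

lemma cont_qof (m : ℕ) :
    Continuous (fun G : Fin (m + 1) → Fin (m + 1) → ℝ => qm (of G)) := by
  have h : Continuous (fun G : Fin (m + 1) → Fin (m + 1) → ℝ =>
    (of G : Matrix (Fin (m + 1)) (Fin (m + 1)) ℝ)) := continuous_id
  exact continuous_qm.comp h

lemma UU_nonneg (m : ℕ) (x : ℝ) : 0 ≤ UU m x := ENNReal.toReal_nonneg

lemma UU_le_one (m : ℕ) (x : ℝ) : UU m x ≤ 1 := by
  unfold UU
  exact ENNReal.toReal_mono ENNReal.one_ne_top prob_le_one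

lemma UU_mono (m : ℕ) {x y : ℝ} (h : x ≤ y) : UU m x ≤ UU m y := by
  unfold UU
  apply ENNReal.toReal_mono (measure_ne_top _ _)
  apply measure_mono
  intro G hG
  exact lt_of_lt_of_le hG h

lemma UU_zero (m : ℕ) : UU m 0 = 0 := by
  unfold UU
  have : {G : Fin (m + 1) → Fin (m + 1) → ℝ | Real.sqrt (qm (of G)) < 0} = ∅ := by
    ext G
    simp only [Set.mem_setOf_eq, Set.mem_empty_iff_false, iff_false, not_lt]
    exact Real.sqrt_nonneg _
  rw [this]
  simp

lemma UU_lsc (m : ℕ) : LowerSemicontinuous (UU m) := by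
  intro x t ht
  have hmono : Monotone (fun k : ℕ => {G : Fin (m + 1) → Fin (m + 1) → ℝ |
      Real.sqrt (qm (of G)) < x - 1 / ((k : ℝ) + 1)}) := by
    intro k l hkl G hG
    simp only [Set.mem_setOf_eq] at hG ⊢
    have h1 : 1 / ((l : ℝ) + 1) ≤ 1 / ((k : ℝ) + 1) := by
      apply one_div_le_one_div_of_le (by positivity)
      have : (k : ℝ) ≤ l := by exact_mod_cast hkl
      linarith
    linarith
  have hU : (⋃ k : ℕ, {G : Fin (m + 1) → Fin (m + 1) → ℝ |
      Real.sqrt (qm (of G)) < x - 1 / ((k : ℝ) + 1)})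
      = {G : Fin (m + 1) → Fin (m + 1) → ℝ | Real.sqrt (qm (of G)) < x} := by
    ext G
    simp only [Set.mem_iUnion, Set.mem_setOf_eq]
    constructor
    · rintro ⟨k, hk⟩
      have : (0 : ℝ) < 1 / ((k : ℝ) + 1) := by positivity
      linarith
    · intro h
      obtain ⟨k, hk⟩ := exists_nat_one_div_lt (sub_pos.2 h)
      exact ⟨k, by linarith⟩
  have h1 := tendsto_measure_iUnion_atTop (μ := g2 (m + 1)) hmono
  rw [hU] at h1
  have h2 : Tendsto (fun k : ℕ => UU m (x - 1 / ((k : ℝ) + 1))) atTop (𝓝 (UU m x)) :=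
    (ENNReal.tendsto_toReal (measure_ne_top _ _)).comp h1
  obtain ⟨k, hk⟩ := (h2.eventually (lt_mem_nhds ht)).exists
  have hx : x - 1 / ((k : ℝ) + 1) < x := by
    have : (0 : ℝ) < 1 / ((k : ℝ) + 1) := by positivity
    linarith
  filter_upwards [lt_mem_nhds hx] with x' hx'
  exact lt_of_lt_of_le hk (UU_mono m hx'.le)

lemma meas_prod_set (m : ℕ) (y : ℝ) :
    MeasurableSet {p : (Fin (m + 1) → Fin (m + 1) → ℝ) × ℝ |
      |Real.sqrt (qm (of p.1)) + p.2| < y} := by
  apply IsOpen.measurableSet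
  apply isOpen_lt _ continuous_const
  have : Continuous (fun p : (Fin (m + 1) → Fin (m + 1) → ℝ) × ℝ => qm (of p.1)) :=
    (cont_qof m).comp continuous_fst
  fun_prop

lemma VV_meas (m : ℕ) (y : ℝ) : Measurable (VV m y) :=
  ENNReal.measurable_toReal.comp
    (measurable_measure_prodMk_right (μ := g2 (m + 1)) (meas_prod_set m y))

theorem UU_star (m : ℕ) : ∀ y, 0 < y → ∀ l, 0 < l → l < 1 → l * UU m y ≤ UU m (l * y) := by
  apply star (UU m) (VV m) (UU_zero m) (UU_lsc m) (UU_nonneg m)
  · exact fun y z => ENNReal.toReal_nonneg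
  · exact fun y z => ENNReal.toReal_mono ENNReal.one_ne_top prob_le_one
  · intro y z hz
    apply ENNReal.toReal_mono (measure_ne_top _ _)
    apply measure_mono
    intro G hG
    simp only [Set.mem_setOf_eq] at hG ⊢
    have h1 := (abs_lt.1 hz).1
    have h2 := Real.sqrt_nonneg (qm (of G))
    rw [abs_lt]
    constructor <;> linarith
  · exact VV_meas m
  · intro y hy c hc hc1
    have h := comp2 (m := m) hc hc1 hy
    have h1 : ∫⁻ g : ℝ, g2 (m + 1) {G | |Real.sqrt (qm (of G)) + c * g| < y}
        ∂(gaussianReal 0 1) = ENNReal.ofReal (∫ g, VV m y (c * g) ∂(gaussianReal 0 1)) := by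
      rw [ofReal_integral_eq_lintegral_ofReal]
      · apply lintegral_congr
        intro g
        unfold VV
        rw [ENNReal.ofReal_toReal (measure_ne_top _ _)]
      · refine Integrable.mono' (integrable_const (1 : ℝ))
          ((VV_meas m y).comp (measurable_const_mul c)).aestronglyMeasurable ?_
        filter_upwards with g
        rw [Real.norm_eq_abs, abs_of_nonneg (show 0 ≤ VV m y (c * g) from ENNReal.toReal_nonneg)]
        exact ENNReal.toReal_mono ENNReal.one_ne_top prob_le_one
      · exact Filter.Eventually.of_forall fun g => ENNReal.toReal_nonneg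
    rw [h1] at h
    have h2 : g2 (m + 1) {G | qm (of G) < y ^ 2} = ENNReal.ofReal (UU m y) := by
      unfold UU
      rw [ENNReal.ofReal_toReal (measure_ne_top _ _)]
      congr 1
      ext G
      simp only [Set.mem_setOf_eq]
      exact (Real.sqrt_lt' hy).symm
    rw [h2] at h
    exact (ENNReal.ofReal_le_ofReal_iff (UU_nonneg m y)).1 h

end Pool.Agent.Y974.SV
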