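import Pool.Agent.Y974.SV.Shift

/-! Integrating the averaged inequality: `s(A+G)` dominates `s(G)`. -/

set_option autoImplicit false

namespace Pool.Agent.Y974.SV

open Matrix MeasureTheory ProbabilityTheory

/-- The expectation of the cutoff of `qm (t A + G)`. -/
noncomputable def Hf {m : ℕ} (a b : ℝ) (A : Matrix (Fin (m + 1)) (Fin (m + 1)) ℝ) (t : ℝ) :
    ENNReal :=
  ∫⁻ G, ENNReal.ofReal (theta a b (qm (t • A + of G))) ∂(g2 (m + 1))

lemma continuous_of {n : ℕ} : Continuous (fun G : Fin n → Fin n → ℝ => of G) := by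
  exact continuous_id

lemma cont_qm_aff {n : ℕ} (B : Matrix (Fin n) (Fin n) ℝ) :
    Continuous (fun G : Fin n → Fin n → ℝ => qm (B + of G)) :=
  continuous_qm.comp (continuous_const.add continuous_of)

lemma Hf_rot {m : ℕ} (a b : ℝ) (A : Matrix (Fin (m + 1)) (Fin (m + 1)) ℝ) (t : ℝ)
    (R : OG (m + 1)) : Hf a b ((R : Matrix (Fin (m + 1)) (Fin (m + 1)) ℝ) * A) t = Hf a b A t := by
  unfold Hf
  have hF : Measurable (fun G : Fin (m + 1) → Fin (m + 1) → ℝ =>
      ENNReal.ofReal (theta a b (qm (t • ((R : Matrix (Fin (m + 1)) (Fin (m + 1)) ℝ) * A)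
        + of G)))) :=
    ENNReal.measurable_ofReal.comp ((continuous_theta a b).comp (cont_qm_aff _)).measurable
  rw [← (rot (R : Matrix (Fin (m + 1)) (Fin (m + 1)) ℝ) (OG_mul' R)).lintegral_comp hF]
  apply lintegral_congr
  intro G
  rw [of_lmul, ← Matrix.mul_smul, ← Matrix.mul_add, qm_orth _ _ (OG_mul R)]

lemma Hf_cm {m : ℕ} (a b : ℝ) (A : Matrix (Fin (m + 1)) (Fin (m + 1)) ℝ) (T s : ℝ) :
    Hf a b A (T - s) = ∫⁻ G, ENNReal.ofReal (Real.exp (T * fr (of G) A - T ^ 2 / 2 * fr A A))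
      * ENNReal.ofReal (theta a b (qm (of G - s • A))) ∂(g2 (m + 1)) := by
  have hF : Measurable (fun G : Fin (m + 1) → Fin (m + 1) → ℝ =>
      ENNReal.ofReal (theta a b (qm (of G - s • A)))) :=
    ENNReal.measurable_ofReal.comp ((continuous_theta a b).comp
      (continuous_qm.comp (continuous_of.sub continuous_const))).measurable
  have h := cameron_martin (fun i j => T * A i j) _ hF
  have h1 : (of fun i j => T * A i j : Matrix (Fin (m + 1)) (Fin (m + 1)) ℝ) = T • A := by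
    ext i j
    simp
  rw [h1] at h
  have h2 : ∀ x : Fin (m + 1) → Fin (m + 1) → ℝ,
      fr (T • A) (of x) - fr (T • A) (T • A) / 2 = T * fr (of x) A - T ^ 2 / 2 * fr A A := by
    intro x
    rw [fr_smul_left, fr_smul_left, fr_comm A (T • A), fr_smul_left, fr_comm A (of x)]
    ring
  simp_rw [h2] at h
  rw [← h]
  unfold Hf
  apply lintegral_congr
  intro G
  congr 3
  ext i j
  simp
  ring

lemma mass_one {m : ℕ} (A : Matrix (Fin (m + 1)) (Fin (m + 1)) ℝ) (T : ℝ) :
    ∫⁻ G, ENNReal.ofReal (Real.exp (T * fr (of G) A - T ^ 2 / 2 * fr A A)) ∂(g2 (m + 1)) = 1 := by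
  have h := cameron_martin (n := m + 1) (fun i j => T * A i j) (fun _ => 1) measurable_const
  have h1 : (of fun i j => T * A i j : Matrix (Fin (m + 1)) (Fin (m + 1)) ℝ) = T • A := by
    ext i j
    simp
  rw [h1] at h
  have h2 : ∀ x : Fin (m + 1) → Fin (m + 1) → ℝ,
      fr (T • A) (of x) - fr (T • A) (T • A) / 2 = T * fr (of x) A - T ^ 2 / 2 * fr A A := by
    intro x
    rw [fr_smul_left, fr_smul_left, fr_comm A (T • A), fr_smul_left, fr_comm A (of x)]
    ring
  simp_rw [h2, mul_one] at h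
  rw [← h]
  simp

lemma fixedM' {m : ℕ} (μ : Measure (OG (m + 1))) [IsProbabilityMeasure μ]
    (hμ : ∀ H : OG (m + 1), MeasurePreserving (fun R => H * R) μ μ)
    (M A : Matrix (Fin (m + 1)) (Fin (m + 1)) ℝ) (a b T δ : ℝ) (ha : 0 ≤ a) (hb : 0 < b)
    (hT : 0 ≤ T) (hδ : 0 ≤ δ) (hδ1 : δ ≤ 1) :
    ∫⁻ R : OG (m + 1), ENNReal.ofReal (Real.exp (T * fr M
        ((R : Matrix (Fin (m + 1)) (Fin (m + 1)) ℝ) * A) - T ^ 2 / 2 * fr A A))
        * ENNReal.ofReal (theta a b (qm M)) ∂μ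
    ≤ (∫⁻ R : OG (m + 1), ENNReal.ofReal (Real.exp (T * fr M
        ((R : Matrix (Fin (m + 1)) (Fin (m + 1)) ℝ) * A) - T ^ 2 / 2 * fr A A))
        * ENNReal.ofReal (theta a b (qm (M - δ •
          ((R : Matrix (Fin (m + 1)) (Fin (m + 1)) ℝ) * A)))) ∂μ)
      + ENNReal.ofReal (δ ^ 2 * CC a b (fr A A)) * ∫⁻ R : OG (m + 1),
        ENNReal.ofReal (Real.exp (T * fr M
        ((R : Matrix (Fin (m + 1)) (Fin (m + 1)) ℝ) * A) - T ^ 2 / 2 * fr A A)) ∂μ := by
  have hcF := cont_fr_right M A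
  have hct : Continuous (fun R : OG (m + 1) =>
      theta a b (qm (M - δ • ((R : Matrix (Fin (m + 1)) (Fin (m + 1)) ℝ) * A)))) := by
    apply (continuous_theta a b).comp
    apply continuous_qm.comp
    exact continuous_const.sub ((continuous_subtype_val.mul continuous_const).const_smul δ)
  have hC := CC_nonneg ha hb (fr_nonneg A)
  simp_rw [← ENNReal.ofReal_mul (Real.exp_pos _).le]
  rw [← ofReal_integral_eq_lintegral_ofReal (int_cont μ (by fun_prop))
      (Filter.Eventually.of_forall fun R =>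
        mul_nonneg (Real.exp_pos _).le (theta_nonneg _ _ _)),
    ← ofReal_integral_eq_lintegral_ofReal (int_cont μ (by fun_prop))
      (Filter.Eventually.of_forall fun R =>
        mul_nonneg (Real.exp_pos _).le (theta_nonneg _ _ _)),
    ← ofReal_integral_eq_lintegral_ofReal (int_cont μ (by fun_prop))
      (Filter.Eventually.of_forall fun R => (Real.exp_pos _).le),
    ← ENNReal.ofReal_mul (by positivity),
    ← ENNReal.ofReal_add (integral_nonneg fun R =>
        mul_nonneg (Real.exp_pos _).le (theta_nonneg _ _ _))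
      (mul_nonneg (by positivity) (integral_nonneg fun R => (Real.exp_pos _).le))]
  apply ENNReal.ofReal_le_ofReal
  have h := fixedM μ hμ M A a b T δ ha hb hT hδ hδ1
  set K := Real.exp (-(T ^ 2 / 2 * fr A A)) with hK
  have hK0 : 0 < K := Real.exp_pos _
  have hexp : ∀ R : OG (m + 1), Real.exp (T * fr M
      ((R : Matrix (Fin (m + 1)) (Fin (m + 1)) ℝ) * A) - T ^ 2 / 2 * fr A A)
      = K * Real.exp (T * fr M ((R : Matrix (Fin (m + 1)) (Fin (m + 1)) ℝ) * A)) := by
    intro R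
    rw [hK, ← Real.exp_add]
    congr 1
    ring
  simp_rw [hexp, mul_assoc K]
  rw [integral_const_mul, integral_const_mul, integral_const_mul]
  have h2 : ∫ R : OG (m + 1), (theta a b (qm M)
        - theta a b (qm (M - δ • ((R : Matrix (Fin (m + 1)) (Fin (m + 1)) ℝ) * A))))
      * Real.exp (T * fr M ((R : Matrix (Fin (m + 1)) (Fin (m + 1)) ℝ) * A)) ∂μ
      = (∫ R : OG (m + 1), Real.exp (T * fr M ((R : Matrix (Fin (m + 1)) (Fin (m + 1)) ℝ) * A))
        * theta a b (qm M) ∂μ)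
      - ∫ R : OG (m + 1), Real.exp (T * fr M ((R : Matrix (Fin (m + 1)) (Fin (m + 1)) ℝ) * A))
        * theta a b (qm (M - δ • ((R : Matrix (Fin (m + 1)) (Fin (m + 1)) ℝ) * A))) ∂μ := by
    rw [← integral_sub (int_cont μ (by fun_prop)) (int_cont μ (by fun_prop))]
    apply integral_congr_ae
    filter_upwards with R
    ring
  rw [h2] at h
  nlinarith [mul_le_mul_of_nonneg_left h hK0.le]

lemma step {m : ℕ} (A : Matrix (Fin (m + 1)) (Fin (m + 1)) ℝ) (a b T δ : ℝ) (ha : 0 ≤ a)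
    (hb : 0 < b) (hT : 0 ≤ T) (hδ : 0 ≤ δ) (hδ1 : δ ≤ 1) :
    Hf a b A T ≤ Hf a b A (T - δ) + ENNReal.ofReal (δ ^ 2 * CC a b (fr A A)) := by
  obtain ⟨μ, hμp, hμ⟩ := exists_haar (m + 1)
  -- the three kernels
  set E : OG (m + 1) → (Fin (m + 1) → Fin (m + 1) → ℝ) → ENNReal := fun R G =>
    ENNReal.ofReal (Real.exp (T * fr (of G)
        ((R : Matrix (Fin (m + 1)) (Fin (m + 1)) ℝ) * A) - T ^ 2 / 2 * fr A A)) with hE
  have hEc : Measurable (Function.uncurry E) := by
    apply ENNReal.measurable_ofReal.comp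
    apply Continuous.measurable
    have h1 : Continuous (fun p : OG (m + 1) × (Fin (m + 1) → Fin (m + 1) → ℝ) =>
        fr (of p.2) ((p.1 : Matrix (Fin (m + 1)) (Fin (m + 1)) ℝ) * A)) :=
      continuous_fr.comp (Continuous.prodMk (continuous_of.comp continuous_snd)
        ((continuous_subtype_val.comp continuous_fst).mul continuous_const))
    fun_prop
  have hNR : ∀ R : OG (m + 1), fr ((R : Matrix (Fin (m + 1)) (Fin (m + 1)) ℝ) * A)
      ((R : Matrix (Fin (m + 1)) (Fin (m + 1)) ℝ) * A) = fr A A := fun R => fr_orth _ _ (OG_mul R)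
  have hT0 : ∀ R : OG (m + 1), Hf a b A T
      = ∫⁻ G, E R G * ENNReal.ofReal (theta a b (qm (of G))) ∂(g2 (m + 1)) := by
    intro R
    rw [← Hf_rot a b A T R]
    have := Hf_cm a b ((R : Matrix (Fin (m + 1)) (Fin (m + 1)) ℝ) * A) T 0
    rw [sub_zero, hNR R] at this
    rw [this]
    simp only [zero_smul, sub_zero, hE]
  have hTδ : ∀ R : OG (m + 1), Hf a b A (T - δ)
      = ∫⁻ G, E R G * ENNReal.ofReal (theta a b (qm (of G
        - δ • ((R : Matrix (Fin (m + 1)) (Fin (m + 1)) ℝ) * A)))) ∂(g2 (m + 1)) := by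
    intro R
    rw [← Hf_rot a b A (T - δ) R]
    have := Hf_cm a b ((R : Matrix (Fin (m + 1)) (Fin (m + 1)) ℝ) * A) T δ
    rw [hNR R] at this
    rw [this]
  have hE1 : ∀ R : OG (m + 1), ∫⁻ G, E R G ∂(g2 (m + 1)) = 1 := by
    intro R
    have := mass_one ((R : Matrix (Fin (m + 1)) (Fin (m + 1)) ℝ) * A) T
    rw [hNR R] at this
    exact this
  have hm1 : Measurable (Function.uncurry fun (R : OG (m + 1))
      (G : Fin (m + 1) → Fin (m + 1) → ℝ) => E R G * ENNReal.ofReal (theta a b (qm (of G)))) := by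
    apply hEc.mul
    apply ENNReal.measurable_ofReal.comp
    exact ((continuous_theta a b).comp
      (continuous_qm.comp (continuous_of.comp continuous_snd))).measurable
  have hm2 : Measurable (Function.uncurry fun (R : OG (m + 1))
      (G : Fin (m + 1) → Fin (m + 1) → ℝ) => E R G * ENNReal.ofReal (theta a b (qm (of G
        - δ • ((R : Matrix (Fin (m + 1)) (Fin (m + 1)) ℝ) * A))))) := by
    apply hEc.mul
    apply ENNReal.measurable_ofReal.comp
    apply Continuous.measurable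
    apply (continuous_theta a b).comp
    apply continuous_qm.comp
    exact (continuous_of.comp continuous_snd).sub
      (((continuous_subtype_val.comp continuous_fst).mul continuous_const).const_smul δ)
  calc Hf a b A T = ∫⁻ _ : OG (m + 1), Hf a b A T ∂μ := by simp
    _ = ∫⁻ R : OG (m + 1), ∫⁻ G, E R G * ENNReal.ofReal (theta a b (qm (of G))) ∂(g2 (m + 1))
        ∂μ := lintegral_congr fun R => hT0 R
    _ = ∫⁻ G, ∫⁻ R : OG (m + 1), E R G * ENNReal.ofReal (theta a b (qm (of G))) ∂μ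
        ∂(g2 (m + 1)) := lintegral_lintegral_swap hm1.aemeasurable
    _ ≤ ∫⁻ G, ((∫⁻ R : OG (m + 1), E R G * ENNReal.ofReal (theta a b (qm (of G
        - δ • ((R : Matrix (Fin (m + 1)) (Fin (m + 1)) ℝ) * A)))) ∂μ)
        + ENNReal.ofReal (δ ^ 2 * CC a b (fr A A)) * ∫⁻ R : OG (m + 1), E R G ∂μ)
        ∂(g2 (m + 1)) :=
        lintegral_mono fun G => fixedM' μ hμ (of G) A a b T δ ha hb hT hδ hδ1
    _ = (∫⁻ G, (∫⁻ R : OG (m + 1), E R G * ENNReal.ofReal (theta a b (qm (of G
        - δ • ((R : Matrix (Fin (m + 1)) (Fin (m + 1)) ℝ) * A)))) ∂μ) ∂(g2 (m + 1)))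
        + ENNReal.ofReal (δ ^ 2 * CC a b (fr A A)) * ∫⁻ G, (∫⁻ R : OG (m + 1), E R G ∂μ)
        ∂(g2 (m + 1)) := by
        have h1 : Measurable (fun G : Fin (m + 1) → Fin (m + 1) → ℝ =>
            ∫⁻ R : OG (m + 1), E R G ∂μ) := hEc.lintegral_prod_left'
        have h2 : Measurable (fun G : Fin (m + 1) → Fin (m + 1) → ℝ =>
            ∫⁻ R : OG (m + 1), E R G * ENNReal.ofReal (theta a b (qm (of G
        - δ • ((R : Matrix (Fin (m + 1)) (Fin (m + 1)) ℝ) * A)))) ∂μ) := hm2.lintegral_prod_left'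
        rw [lintegral_add_left h2, lintegral_const_mul _ h1]
    _ = (∫⁻ R : OG (m + 1), (∫⁻ G, E R G * ENNReal.ofReal (theta a b (qm (of G
        - δ • ((R : Matrix (Fin (m + 1)) (Fin (m + 1)) ℝ) * A)))) ∂(g2 (m + 1))) ∂μ)
        + ENNReal.ofReal (δ ^ 2 * CC a b (fr A A)) * ∫⁻ R : OG (m + 1), (∫⁻ G, E R G
        ∂(g2 (m + 1))) ∂μ := by
        rw [lintegral_lintegral_swap hm2.aemeasurable, lintegral_lintegral_swap hEc.aemeasurable]
    _ = Hf a b A (T - δ) + ENNReal.ofReal (δ ^ 2 * CC a b (fr A A)) := by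
        simp_rw [← hTδ, hE1]
        simp

lemma steps {m : ℕ} (A : Matrix (Fin (m + 1)) (Fin (m + 1)) ℝ) (a b : ℝ) (ha : 0 ≤ a)
    (hb : 0 < b) (N : ℕ) (hN : 0 < N) (k : ℕ) :
    Hf a b A ((k : ℝ) / N) ≤ Hf a b A 0
      + k * ENNReal.ofReal ((1 / (N : ℝ)) ^ 2 * CC a b (fr A A)) := by
  have hN' : (0 : ℝ) < N := by exact_mod_cast hN
  induction k with
  | zero => simp
  | succ k ih =>
    have h := step A a b (((k + 1 : ℕ) : ℝ) / N) (1 / N) ha hb (by positivity) (by positivity)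
      (by rw [div_le_one hN']; exact_mod_cast hN)
    have e : ((k + 1 : ℕ) : ℝ) / N - 1 / N = (k : ℝ) / N := by
      push_cast
      ring
    rw [e] at h
    refine le_trans h ?_
    refine le_trans (add_le_add_left ih _) ?_
    push_cast
    rw [add_mul, one_mul, add_assoc]

lemma Hf_mono {m : ℕ} (A : Matrix (Fin (m + 1)) (Fin (m + 1)) ℝ) (a b : ℝ) (ha : 0 ≤ a)
    (hb : 0 < b) : Hf a b A 1 ≤ Hf a b A 0 := by
  apply ENNReal.le_of_forall_pos_le_add
  intro ε hε _
  have hC := CC_nonneg ha hb (fr_nonneg A)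
  obtain ⟨N, hN⟩ := exists_nat_gt (CC a b (fr A A) / ε)
  have hε' : (0 : ℝ) < ε := by exact_mod_cast hε
  have hN0 : (0 : ℝ) < N := lt_of_le_of_lt (by positivity) hN
  have hN0' : 0 < N := by exact_mod_cast hN0
  have h := steps A a b ha hb N hN0' N
  rw [div_self hN0.ne'] at h
  refine le_trans h (add_le_add_right ?_ _)
  have h2 : (N : ENNReal) = ENNReal.ofReal (N : ℝ) := (ENNReal.ofReal_natCast N).symm
  rw [h2, ← ENNReal.ofReal_mul hN0.le]
  have h3 : (ε : ENNReal) = ENNReal.ofReal (ε : ℝ) := (ENNReal.ofReal_coe_nnreal).symm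
  rw [h3]
  apply ENNReal.ofReal_le_ofReal
  have h4 : CC a b (fr A A) < N * ε := by
    rwa [div_lt_iff₀ hε'] at hN
  have : (N : ℝ) * ((1 / (N : ℝ)) ^ 2 * CC a b (fr A A)) = CC a b (fr A A) / N := by
    field_simp
  rw [this, div_le_iff₀ hN0]
  linarith

/-- **Shift monotonicity**: `s_min(A+G)` is stochastically larger than `s_min(G)`. -/
theorem shift {m : ℕ} (A : Matrix (Fin (m + 1)) (Fin (m + 1)) ℝ) (a b : ℝ) (ha : 0 ≤ a)
    (hb : 0 < b) :
    g2 (m + 1) {G | qm (A + of G) ≤ a} ≤ g2 (m + 1) {G | qm (of G) < a + b} := by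
  have h1 : g2 (m + 1) {G | qm (A + of G) ≤ a} ≤ Hf a b A 1 := by
    have hS : MeasurableSet {G : Fin (m + 1) → Fin (m + 1) → ℝ | qm (A + of G) ≤ a} :=
      (isClosed_le (cont_qm_aff A) continuous_const).measurableSet
    rw [← lintegral_indicator_one hS]
    unfold Hf
    apply lintegral_mono
    intro G
    by_cases hG : qm (A + of G) ≤ a
    · rw [Set.indicator_of_mem (by exact hG)]
      simp only [one_smul]
      rw [theta_one a b hG]
      simp
    · rw [Set.indicator_of_notMem (by exact hG)]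
      exact zero_le
  have h2 : Hf a b A 0 ≤ g2 (m + 1) {G | qm (of G) < a + b} := by
    have hS : MeasurableSet {G : Fin (m + 1) → Fin (m + 1) → ℝ | qm (of G) < a + b} :=
      (isOpen_lt (continuous_qm.comp continuous_of) continuous_const).measurableSet
    rw [← lintegral_indicator_one hS]
    unfold Hf
    apply lintegral_mono
    intro G
    simp only [zero_smul, zero_add]
    by_cases hG : qm (of G) < a + b
    · rw [Set.indicator_of_mem (by exact hG)]
      simp only [Pi.one_apply]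
      rw [← ENNReal.ofReal_one]
      exact ENNReal.ofReal_le_ofReal (theta_le_one _ _ _)
    · rw [Set.indicator_of_notMem (by exact hG), theta_zero a hb (not_lt.1 hG)]
      simp
  exact h1.trans ((Hf_mono A a b ha hb).trans h2)

end Pool.Agent.Y974.SV
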