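import Pool.Agent.Y974.SV.Small
import Pool.Agent.Y974.SV.Conc
import Pool.Agent.Y974.SV.Shift2

/-! The final tail bound. -/

set_option autoImplicit false

namespace Pool.Agent.Y974.SV

open Matrix MeasureTheory ProbabilityTheory Filter Topology

lemma abs_mean : ∫ g : ℝ, |g| ∂(gaussianReal 0 1) = Real.sqrt (2 / Real.pi) := by
  rw [integral_gaussianReal_eq_integral_smul one_ne_zero]
  have h1 : ∀ x : ℝ, gaussianPDFReal 0 1 x • |x|
      = (fun y : ℝ => (Real.sqrt (2 * Real.pi))⁻¹ * (y ^ (1 : ℝ) * Real.exp (-(1 / 2) * y ^ (2 : ℝ))))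
        |x| := by
    intro x
    simp only [Real.rpow_one, Real.rpow_two, sq_abs, smul_eq_mul]
    unfold gaussianPDFReal
    have e1 : -(x - 0) ^ 2 / (2 * ((1 : NNReal) : ℝ)) = -(1 / 2) * x ^ 2 := by
      simp
      ring
    rw [e1]
    simp
    ring
  simp_rw [h1]
  rw [integral_comp_abs (f := fun y : ℝ => (Real.sqrt (2 * Real.pi))⁻¹
      * (y ^ (1 : ℝ) * Real.exp (-(1 / 2) * y ^ (2 : ℝ)))), integral_const_mul,
    integral_rpow_mul_exp_neg_mul_rpow (by norm_num) (by norm_num) (by norm_num)]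
  have e2 : ((1 : ℝ) + 1) / 2 = 1 := by norm_num
  have e3 : -((1 : ℝ) + 1) / 2 = -1 := by norm_num
  rw [e2, e3, Real.Gamma_one, Real.rpow_neg_one]
  have h4 : Real.sqrt (2 / Real.pi) = 2 * (Real.sqrt (2 * Real.pi))⁻¹ := by
    rw [eq_comm, ← div_eq_mul_inv, div_eq_iff (by positivity), ← Real.sqrt_mul (by positivity)]
    rw [show 2 / Real.pi * (2 * Real.pi) = 2 ^ 2 by field_simp]
    rw [Real.sqrt_sq (by norm_num)]
  rw [h4]
  norm_num

lemma lint_sq : ∫⁻ g : ℝ, ENNReal.ofReal (g ^ 2) ∂(gaussianReal 0 1) = 1 := by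
  rw [← ofReal_integral_eq_lintegral_ofReal (int_pow 2)
    (Filter.Eventually.of_forall fun g => sq_nonneg g), mom2, ENNReal.ofReal_one]

/-- The mean norm of a Gaussian vector. -/
lemma norm_mean (m : ℕ) : ∫⁻ η : Fin (m + 1) → ℝ, ENNReal.ofReal (Real.sqrt (η ⬝ᵥ η))
    ∂(g1 (m + 1)) ≤ ENNReal.ofReal (Real.sqrt ((m + 1 : ℕ) : ℝ)) := by
  set n : ℝ := ((m + 1 : ℕ) : ℝ) with hn
  have hn0 : 0 < n := by rw [hn]; positivity
  have hsn := Real.sqrt_pos.2 hn0
  have hsq : Real.sqrt n * Real.sqrt n = n := Real.mul_self_sqrt hn0.le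
  have h1 : ∀ η : Fin (m + 1) → ℝ, ENNReal.ofReal (Real.sqrt (η ⬝ᵥ η))
      ≤ ENNReal.ofReal (1 / (2 * Real.sqrt n)) * (∑ i, ENNReal.ofReal ((η i) ^ 2))
        + ENNReal.ofReal (Real.sqrt n / 2) := by
    intro η
    have e : ∑ i, ENNReal.ofReal ((η i) ^ 2) = ENNReal.ofReal (η ⬝ᵥ η) := by
      rw [← ENNReal.ofReal_sum_of_nonneg (fun i _ => sq_nonneg _)]
      congr 1
      unfold dotProduct
      exact Finset.sum_congr rfl fun i _ => sq _
    rw [e, ← ENNReal.ofReal_mul (by positivity),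
      ← ENNReal.ofReal_add (mul_nonneg (by positivity) (dot_self_nonneg _)) (by positivity)]
    apply ENNReal.ofReal_le_ofReal
    have h2 := Real.mul_self_sqrt (dot_self_nonneg η)
    have h3 : 1 / (2 * Real.sqrt n) * (η ⬝ᵥ η) + Real.sqrt n / 2
        = (η ⬝ᵥ η + n) / (2 * Real.sqrt n) := by
      field_simp
      rw [sq, hsq]
    rw [h3, le_div_iff₀ (by positivity)]
    nlinarith [sq_nonneg (Real.sqrt (η ⬝ᵥ η) - Real.sqrt n)]
  refine (lintegral_mono h1).trans (le_of_eq ?_)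
  have hmeas : ∀ i : Fin (m + 1), Measurable (fun η : Fin (m + 1) → ℝ =>
      ENNReal.ofReal ((η i) ^ 2)) := fun i => by fun_prop
  rw [lintegral_add_right _ measurable_const, lintegral_const_mul _
    (Finset.measurable_fun_sum _ fun i _ => hmeas i), lintegral_finsetSum _ fun i _ => hmeas i]
  have h4 : ∀ i : Fin (m + 1), ∫⁻ η : Fin (m + 1) → ℝ, ENNReal.ofReal ((η i) ^ 2)
      ∂(g1 (m + 1)) = 1 := by
    intro i
    have h5 := (measurePreserving_eval (fun _ : Fin (m + 1) => gaussianReal 0 1) i).lintegral_comp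
      (f := fun x : ℝ => ENNReal.ofReal (x ^ 2)) (by fun_prop)
    rw [← lint_sq, ← h5]
  simp_rw [h4]
  simp only [Finset.sum_const, Finset.card_univ, Fintype.card_fin, nsmul_eq_mul, mul_one,
    lintegral_const, measure_univ]
  have h6 : (((m + 1 : ℕ) : ENNReal)) = ENNReal.ofReal n := by
    rw [hn, ENNReal.ofReal_natCast]
  rw [h6, ← ENNReal.ofReal_mul (by positivity), ← ENNReal.ofReal_add (by positivity)
    (by positivity)]
  congr 1
  field_simp
  rw [sq, hsq]
  ring

lemma small_set_closed (m : ℕ) (δ κ : ℝ) :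
    IsClosed {p : (Fin (m + 1) → Fin (m + 1) → ℝ) × ℝ |
      qm (of p.1) ≤ δ ^ 2 * p.2 ^ 2 ∧ κ ≤ p.2 ^ 2} := by
  have h1 : Continuous (fun p : (Fin (m + 1) → Fin (m + 1) → ℝ) × ℝ => qm (of p.1)) :=
    (cont_qof m).comp continuous_fst
  exact (isClosed_le h1 (continuous_const.mul (continuous_snd.pow 2))).inter
    (isClosed_le continuous_const (continuous_snd.pow 2))

theorem smallint (m : ℕ) {δ κ : ℝ} (hδ : 0 < δ) (hκ : 0 < κ) :
    ∫⁻ g : ℝ, g2 (m + 1) {G | qm (of G) ≤ δ ^ 2 * g ^ 2 ∧ κ ≤ g ^ 2} ∂(gaussianReal 0 1)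
      ≤ ENNReal.ofReal (Real.sqrt (2 / Real.pi) * (δ * Real.sqrt ((m + 1 : ℕ) : ℝ))) := by
  have hP := (small_set_closed m δ κ).measurableSet
  have e1 := Measure.prod_apply (μ := g2 (m + 1)) (ν := gaussianReal 0 1) hP
  have e2 := Measure.prod_apply_symm (μ := g2 (m + 1)) (ν := gaussianReal 0 1) hP
  have hE := (EE_closed m δ κ).measurableSet
  have e3 := Measure.prod_apply (μ := g2 (m + 1)) (ν := g1 (m + 1)) hE
  have e4 := Measure.prod_apply_symm (μ := g2 (m + 1)) (ν := g1 (m + 1)) hE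
  have h1 : ∀ G : Fin (m + 1) → Fin (m + 1) → ℝ,
      gaussianReal 0 1 (Prod.mk G ⁻¹' {p : (Fin (m + 1) → Fin (m + 1) → ℝ) × ℝ |
      qm (of p.1) ≤ δ ^ 2 * p.2 ^ 2 ∧ κ ≤ p.2 ^ 2})
      ≤ g1 (m + 1) (Prod.mk G ⁻¹' (EE m δ κ)) := by
    intro G
    obtain ⟨u, hu, hGu⟩ := exists_left (of G)
    have hms : MeasurableSet (Prod.mk G ⁻¹' {p : (Fin (m + 1) → Fin (m + 1) → ℝ) × ℝ |
      qm (of p.1) ≤ δ ^ 2 * p.2 ^ 2 ∧ κ ≤ p.2 ^ 2}) := measurable_prodMk_left hP
    rw [← (marg u hu).measure_preimage hms.nullMeasurableSet]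
    apply measure_mono
    intro η hη
    exact ⟨u, hu, hGu, hη.1, hη.2⟩
  calc ∫⁻ g : ℝ, g2 (m + 1) {G | qm (of G) ≤ δ ^ 2 * g ^ 2 ∧ κ ≤ g ^ 2} ∂(gaussianReal 0 1)
      = ∫⁻ G, gaussianReal 0 1 (Prod.mk G ⁻¹' {p : (Fin (m + 1) → Fin (m + 1) → ℝ) × ℝ |
      qm (of p.1) ≤ δ ^ 2 * p.2 ^ 2 ∧ κ ≤ p.2 ^ 2}) ∂(g2 (m + 1)) := by
        rw [← e1, e2]
        rfl
    _ ≤ ∫⁻ G, g1 (m + 1) (Prod.mk G ⁻¹' (EE m δ κ)) ∂(g2 (m + 1)) := lintegral_mono h1
    _ = ∫⁻ η, g2 (m + 1) ((fun G => (G, η)) ⁻¹' (EE m δ κ)) ∂(g1 (m + 1)) := by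
        rw [← e3, e4]
    _ ≤ ∫⁻ η : Fin (m + 1) → ℝ, ENNReal.ofReal (Real.sqrt (2 / Real.pi)
        * (δ * Real.sqrt (η ⬝ᵥ η))) ∂(g1 (m + 1)) := lintegral_mono fun η => upper m hδ hκ η
    _ = ENNReal.ofReal (Real.sqrt (2 / Real.pi) * δ) * ∫⁻ η : Fin (m + 1) → ℝ,
        ENNReal.ofReal (Real.sqrt (η ⬝ᵥ η)) ∂(g1 (m + 1)) := by
        rw [← lintegral_const_mul]
        · apply lintegral_congr
          intro η
          rw [← ENNReal.ofReal_mul (by positivity), mul_assoc]
        · apply ENNReal.measurable_ofReal.comp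
          apply Continuous.measurable
          apply Real.continuous_sqrt.comp
          unfold dotProduct
          fun_prop
    _ ≤ ENNReal.ofReal (Real.sqrt (2 / Real.pi) * δ)
        * ENNReal.ofReal (Real.sqrt ((m + 1 : ℕ) : ℝ)) := by
        gcongr
        exact norm_mean m
    _ = _ := by
        rw [← ENNReal.ofReal_mul (by positivity), mul_assoc]

/-- The centred tail bound. -/
theorem UU_le (m : ℕ) {y : ℝ} (hy : 0 < y) : UU m y ≤ Real.sqrt ((m + 1 : ℕ) : ℝ) * y := by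
  set sn := Real.sqrt ((m + 1 : ℕ) : ℝ) with hsn
  set E := Real.sqrt (2 / Real.pi) with hE
  have hE0 : 0 < E := by rw [hE]; positivity
  have hU0 := UU_nonneg m y
  have hU1 := UU_le_one m y
  -- the inequality for every `δ`
  have key : ∀ δ : ℝ, 0 < δ → UU m y * E / y - δ * (UU m y / y ^ 2 + 1 / y) ≤ E * sn := by
    intro δ hδ
    set f : ℝ → ENNReal := fun g =>
      g2 (m + 1) {G | qm (of G) ≤ δ ^ 2 * g ^ 2 ∧ δ ^ 2 ≤ g ^ 2} with hf
    have hfm : Measurable f :=
      measurable_measure_prodMk_right (μ := g2 (m + 1))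
        (small_set_closed m δ (δ ^ 2)).measurableSet
    have hf1 : ∀ g, f g ≤ 1 := fun g => prob_le_one
    have hft : ∀ g, f g ≠ ⊤ := fun g => measure_ne_top _ _
    have hs := smallint m hδ (sq_pos_of_pos hδ)
    have hF1 : ∫ g, (f g).toReal ∂(gaussianReal 0 1) ≤ E * (δ * sn) := by
      have h1 : ENNReal.ofReal (∫ g, (f g).toReal ∂(gaussianReal 0 1))
          = ∫⁻ g, f g ∂(gaussianReal 0 1) := by
        rw [ofReal_integral_eq_lintegral_ofReal]
        · apply lintegral_congr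
          intro g
          rw [ENNReal.ofReal_toReal (hft g)]
        · refine Integrable.mono' (integrable_const (1 : ℝ))
            (ENNReal.measurable_toReal.comp hfm).aestronglyMeasurable ?_
          filter_upwards with g
          rw [Real.norm_eq_abs, abs_of_nonneg ENNReal.toReal_nonneg]
          exact ENNReal.toReal_mono ENNReal.one_ne_top (hf1 g)
        · exact Filter.Eventually.of_forall fun g => ENNReal.toReal_nonneg
      rw [← h1] at hs
      exact (ENNReal.ofReal_le_ofReal_iff (by positivity)).1 hs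
    have hlow : ∀ g : ℝ, (UU m y * (δ / y)) * |g| - (UU m y * (δ / y) ^ 2) * g ^ 2 - δ ^ 2 / y
        ≤ (f g).toReal := by
      intro g
      set t := δ * |g| / y with ht
      have ht0 : 0 ≤ t := by positivity
      have e : (UU m y * (δ / y)) * |g| - (UU m y * (δ / y) ^ 2) * g ^ 2
          = UU m y * (t - t ^ 2) := by
        rw [ht, ← sq_abs g]
        ring
      rw [e]
      rcases le_or_gt (δ ^ 2) (g ^ 2) with hg | hg
      · have h1 : UU m (δ * |g|) ≤ (f g).toReal := by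
          apply ENNReal.toReal_mono (hft g)
          apply measure_mono
          intro G hG
          refine ⟨?_, hg⟩
          have h2 : Real.sqrt (qm (of G)) < δ * |g| := hG
          have h3 := Real.sq_sqrt (qm_nonneg (of G))
          have h4 := Real.sqrt_nonneg (qm (of G))
          have h5 : Real.sqrt (qm (of G)) ^ 2 ≤ (δ * |g|) ^ 2 := pow_le_pow_left₀ h4 h2.le 2
          rw [h3, mul_pow, sq_abs] at h5
          exact h5
        have h6 : UU m y * (t - t ^ 2) ≤ UU m (δ * |g|) := by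
          rcases le_or_gt 1 t with h7 | h7
          · have : t - t ^ 2 ≤ 0 := by nlinarith
            exact (mul_nonpos_of_nonneg_of_nonpos hU0 this).trans (UU_nonneg m _)
          · rcases ht0.eq_or_lt with h8 | h8
            · rw [← h8]
              simp only [ne_eq, OfNat.ofNat_ne_zero, not_false_eq_true, zero_pow, sub_self,
                mul_zero]
              exact UU_nonneg m _
            · have h9 := UU_star m y hy t h8 h7
              have h10 : t * y = δ * |g| := by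
                rw [ht]
                field_simp
              rw [h10] at h9
              nlinarith [mul_nonneg hU0 (sq_nonneg t)]
        have : 0 ≤ δ ^ 2 / y := by positivity
        linarith
      · have h1 : |g| < δ := abs_lt_of_sq_lt_sq hg hδ.le
        have h2 : t ≤ δ ^ 2 / y := by
          rw [ht, sq]
          gcongr
        have h3 : UU m y * (t - t ^ 2) ≤ t := by
          have : UU m y * (t - t ^ 2) = UU m y * t - UU m y * t ^ 2 := by ring
          rw [this]
          nlinarith [mul_nonneg hU0 (sq_nonneg t)]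
        have h4 : 0 ≤ (f g).toReal := ENNReal.toReal_nonneg
        linarith
    have ia : Integrable (fun g : ℝ => |g|) (gaussianReal 0 1) := by
      have : Integrable (fun g : ℝ => g) (gaussianReal 0 1) := by simpa using int_pow 1
      exact this.abs
    have i1 : Integrable (fun g : ℝ => (UU m y * (δ / y)) * |g|) (gaussianReal 0 1) :=
      ia.const_mul _
    have i2 : Integrable (fun g : ℝ => (UU m y * (δ / y) ^ 2) * g ^ 2) (gaussianReal 0 1) :=
      (int_pow 2).const_mul _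
    have i12 : Integrable (fun g : ℝ => (UU m y * (δ / y)) * |g|
        - (UU m y * (δ / y) ^ 2) * g ^ 2) (gaussianReal 0 1) := i1.sub i2
    have i3 : Integrable (fun _ : ℝ => δ ^ 2 / y) (gaussianReal 0 1) := integrable_const _
    have iF : Integrable (fun g => (f g).toReal) (gaussianReal 0 1) := by
      refine Integrable.mono' (integrable_const (1 : ℝ))
        (ENNReal.measurable_toReal.comp hfm).aestronglyMeasurable ?_
      filter_upwards with g
      rw [Real.norm_eq_abs, abs_of_nonneg ENNReal.toReal_nonneg]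
      exact ENNReal.toReal_mono ENNReal.one_ne_top (hf1 g)
    have h2 := integral_mono (i12.sub i3) iF hlow
    have h3 : ∫ g : ℝ, ((UU m y * (δ / y)) * |g| - (UU m y * (δ / y) ^ 2) * g ^ 2 - δ ^ 2 / y)
        ∂(gaussianReal 0 1) = (UU m y * (δ / y)) * E - (UU m y * (δ / y) ^ 2) - δ ^ 2 / y := by
      rw [integral_sub i12 i3, integral_sub i1 i2, integral_const_mul, integral_const_mul,
        abs_mean, mom2]
      simp [hE]
    have h4 : (UU m y * (δ / y)) * E - (UU m y * (δ / y) ^ 2) - δ ^ 2 / y ≤ E * (δ * sn) := by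
      rw [← h3]
      exact h2.trans hF1
    have h5 : (UU m y * (δ / y)) * E - (UU m y * (δ / y) ^ 2) - δ ^ 2 / y
        = δ * (UU m y * E / y - δ * (UU m y / y ^ 2 + 1 / y)) := by
      field_simp
      ring
    have h6 : E * (δ * sn) = δ * (E * sn) := by ring
    rw [h5, h6] at h4
    exact le_of_mul_le_mul_left h4 hδ
  -- let `δ → 0`
  have h1 : UU m y * E / y ≤ E * sn := by
    apply le_of_forall_pos_le_add
    intro ε hε
    have hK : 0 < UU m y / y ^ 2 + 1 / y := by positivity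
    have h := key (ε / (UU m y / y ^ 2 + 1 / y)) (by positivity)
    rw [div_mul_cancel₀ _ hK.ne'] at h
    linarith
  rw [div_le_iff₀ hy] at h1
  have h2 : E * UU m y ≤ E * (sn * y) := by nlinarith
  exact le_of_mul_le_mul_left h2 hE0

/-- The tail bound for shifted matrices. -/
theorem tail (m : ℕ) (A : Matrix (Fin (m + 1)) (Fin (m + 1)) ℝ) {y : ℝ} (hy : 0 < y) :
    g2 (m + 1) {G | qm (A + of G) ≤ y ^ 2}
      ≤ ENNReal.ofReal (Real.sqrt ((m + 1 : ℕ) : ℝ) * y) := by
  apply ENNReal.le_of_forall_pos_le_add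
  intro ε hε _
  have hε' : (0 : ℝ) < ε := by exact_mod_cast hε
  set sn := Real.sqrt ((m + 1 : ℕ) : ℝ) with hsn
  have hsn0 : 0 < sn := by rw [hsn]; positivity
  set d := (ε : ℝ) / sn with hd
  have hd0 : 0 < d := by positivity
  have h1 := shift A (y ^ 2) ((y + d) ^ 2 - y ^ 2) (sq_nonneg y) (by nlinarith)
  refine h1.trans ?_
  have h2 : y ^ 2 + ((y + d) ^ 2 - y ^ 2) = (y + d) ^ 2 := by ring
  rw [h2]
  have h3 : g2 (m + 1) {G | qm (of G) < (y + d) ^ 2} = ENNReal.ofReal (UU m (y + d)) := by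
    unfold UU
    rw [ENNReal.ofReal_toReal (measure_ne_top _ _)]
    congr 1
    ext G
    simp only [Set.mem_setOf_eq]
    exact (Real.sqrt_lt' (by positivity)).symm
  rw [h3]
  have h4 := UU_le m (y := y + d) (by positivity)
  have h5 : (ε : ENNReal) = ENNReal.ofReal (ε : ℝ) := (ENNReal.ofReal_coe_nnreal).symm
  rw [h5, ← ENNReal.ofReal_add (by positivity) hε'.le]
  apply ENNReal.ofReal_le_ofReal
  refine h4.trans (le_of_eq ?_)
  rw [← hsn, mul_add]
  congr 1
  rw [hd]
  field_simp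

end Pool.Agent.Y974.SV
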