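import Mathlib

/-! The squared smallest singular value of a real square matrix. -/

set_option autoImplicit false

namespace Pool.Agent.Y974.SV

open Matrix

/-- The Euclidean unit sphere of `Fin n → ℝ`. -/
def sph (n : ℕ) : Set (Fin n → ℝ) := {v | v ⬝ᵥ v = 1}

/-- The squared smallest singular value of `M`. -/
noncomputable def qm {n : ℕ} (M : Matrix (Fin n) (Fin n) ℝ) : ℝ :=
  sInf ((fun v => (M *ᵥ v) ⬝ᵥ (M *ᵥ v)) '' sph n)

lemma dot_self_nonneg {n : ℕ} (v : Fin n → ℝ) : 0 ≤ v ⬝ᵥ v := by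
  unfold dotProduct
  exact Finset.sum_nonneg fun i _ => mul_self_nonneg _

lemma dot_self_eq_zero {n : ℕ} {v : Fin n → ℝ} (h : v ⬝ᵥ v = 0) : v = 0 := by
  unfold dotProduct at h
  rw [Finset.sum_eq_zero_iff_of_nonneg fun i _ => mul_self_nonneg _] at h
  funext i
  exact mul_self_eq_zero.1 (h i (Finset.mem_univ i))

lemma dot_self_pos {n : ℕ} {v : Fin n → ℝ} (h : v ≠ 0) : 0 < v ⬝ᵥ v :=
  lt_of_le_of_ne (dot_self_nonneg v) fun h' => h (dot_self_eq_zero h'.symm)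

/-- Cauchy-Schwarz. -/
lemma dot_sq_le {n : ℕ} (v w : Fin n → ℝ) : (v ⬝ᵥ w) ^ 2 ≤ (v ⬝ᵥ v) * (w ⬝ᵥ w) := by
  have := Finset.sum_mul_sq_le_sq_mul_sq Finset.univ v w
  simpa [dotProduct, sq] using this

lemma isCompact_sph (n : ℕ) : IsCompact (sph n) := by
  have hK : IsCompact (Set.pi Set.univ fun _ : Fin n => Set.Icc (-1 : ℝ) 1) :=
    isCompact_univ_pi fun _ => isCompact_Icc
  refine hK.of_isClosed_subset ?_ ?_
  · refine isClosed_eq ?_ continuous_const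
    unfold dotProduct
    fun_prop
  · intro v hv i _
    have h1 : v i * v i ≤ 1 := by
      have : v ⬝ᵥ v = 1 := hv
      rw [← this]
      unfold dotProduct
      exact Finset.single_le_sum (f := fun i => v i * v i) (fun j _ => mul_self_nonneg _)
        (Finset.mem_univ i)
    rw [Set.mem_Icc, ← abs_le]
    exact abs_le_one_iff_mul_self_le_one.2 h1

lemma sph_nonempty (m : ℕ) : (sph (m + 1)).Nonempty :=
  ⟨Pi.single 0 1, by simp [sph]⟩

lemma qm_le {n : ℕ} (M : Matrix (Fin n) (Fin n) ℝ) {v : Fin n → ℝ} (hv : v ⬝ᵥ v = 1) :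
    qm M ≤ (M *ᵥ v) ⬝ᵥ (M *ᵥ v) :=
  csInf_le ⟨0, by rintro _ ⟨w, _, rfl⟩; exact dot_self_nonneg _⟩ ⟨v, hv, rfl⟩

lemma cont_quad {n : ℕ} :
    Continuous (fun p : Matrix (Fin n) (Fin n) ℝ × (Fin n → ℝ) =>
      (p.1 *ᵥ p.2) ⬝ᵥ (p.1 *ᵥ p.2)) := by
  unfold dotProduct mulVec dotProduct
  fun_prop

lemma exists_min {m : ℕ} (M : Matrix (Fin (m + 1)) (Fin (m + 1)) ℝ) :
    ∃ v : Fin (m + 1) → ℝ, v ⬝ᵥ v = 1 ∧ (M *ᵥ v) ⬝ᵥ (M *ᵥ v) = qm M := by
  obtain ⟨v, hv, h⟩ := (isCompact_sph (m + 1)).exists_sInf_image_eq (sph_nonempty m)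
    (f := fun v => (M *ᵥ v) ⬝ᵥ (M *ᵥ v))
    ((cont_quad.comp (Continuous.prodMk_right M)).continuousOn)
  exact ⟨v, hv, h.symm⟩

lemma qm_nonneg {m : ℕ} (M : Matrix (Fin (m + 1)) (Fin (m + 1)) ℝ) : 0 ≤ qm M := by
  obtain ⟨v, _, h⟩ := exists_min M
  rw [← h]
  exact dot_self_nonneg _

lemma continuous_qm {n : ℕ} : Continuous (qm : Matrix (Fin n) (Fin n) ℝ → ℝ) :=
  IsCompact.continuous_sInf (isCompact_sph n)
    (f := fun (M : Matrix (Fin n) (Fin n) ℝ) v => (M *ᵥ v) ⬝ᵥ (M *ᵥ v)) cont_quad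

lemma qm_le_hom {n : ℕ} (M : Matrix (Fin n) (Fin n) ℝ) (z : Fin n → ℝ) :
    qm M * (z ⬝ᵥ z) ≤ (M *ᵥ z) ⬝ᵥ (M *ᵥ z) := by
  rcases eq_or_ne z 0 with rfl | hz
  · simp
  have hp := dot_self_pos hz
  set c := Real.sqrt (z ⬝ᵥ z) with hc
  have hc0 : 0 < c := Real.sqrt_pos.2 hp
  have hcc : c * c = z ⬝ᵥ z := Real.mul_self_sqrt hp.le
  have h1 : (c⁻¹ • z) ⬝ᵥ (c⁻¹ • z) = 1 := by
    rw [smul_dotProduct, dotProduct_smul, smul_eq_mul, smul_eq_mul, ← hcc]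
    field_simp
  have h2 := qm_le M h1
  rw [mulVec_smul, smul_dotProduct, dotProduct_smul, smul_eq_mul, smul_eq_mul] at h2
  rw [← hcc]
  calc qm M * (c * c) ≤ (c⁻¹ * (c⁻¹ * ((M *ᵥ z) ⬝ᵥ (M *ᵥ z)))) * (c * c) :=
        mul_le_mul_of_nonneg_right h2 (mul_nonneg hc0.le hc0.le)
    _ = (M *ᵥ z) ⬝ᵥ (M *ᵥ z) := by field_simp

/-- The first order condition at a minimiser. -/
lemma eigen {n : ℕ} (M : Matrix (Fin n) (Fin n) ℝ) {v : Fin n → ℝ} (hv : v ⬝ᵥ v = 1)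
    (hm : (M *ᵥ v) ⬝ᵥ (M *ᵥ v) = qm M) (z : Fin n → ℝ) :
    (M *ᵥ v) ⬝ᵥ (M *ᵥ z) = qm M * (v ⬝ᵥ z) := by
  -- the quadratic polynomial in `ε`
  set B := (M *ᵥ v) ⬝ᵥ (M *ᵥ z) - qm M * (v ⬝ᵥ z) with hB
  set P := (M *ᵥ z) ⬝ᵥ (M *ᵥ z) - qm M * (z ⬝ᵥ z) with hP
  have key : ∀ ε : ℝ, 0 ≤ 2 * ε * B + ε ^ 2 * P := by
    intro ε
    have h := qm_le_hom M (v + ε • z)
    rw [mulVec_add, mulVec_smul] at h
    simp only [add_dotProduct, dotProduct_add, smul_dotProduct, dotProduct_smul, smul_eq_mul] at h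
    rw [dotProduct_comm (M *ᵥ z) (M *ᵥ v), dotProduct_comm z v, hv, hm] at h
    rw [hB, hP]
    nlinarith [h]
  have hP0 : 0 ≤ P := by
    have := qm_le_hom M z
    rw [hP]
    linarith
  have hB0 : B = 0 := by
    by_contra hne
    have h := key (-B / (P + 1))
    have hP1 : 0 < P + 1 := by linarith
    have hBB : 0 < B ^ 2 := by positivity
    have : 2 * (-B / (P + 1)) * B + (-B / (P + 1)) ^ 2 * P
        = - (B ^ 2 * (P + 2)) / (P + 1) ^ 2 := by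
      field_simp
      ring
    rw [this] at h
    have h3 : - (B ^ 2 * (P + 2)) / (P + 1) ^ 2 < 0 := by
      apply div_neg_of_neg_of_pos
      · have : 0 < B ^ 2 * (P + 2) := by positivity
        linarith
      · positivity
    linarith
  linarith [hB0, hB]

/-- Left multiplication by an orthogonal matrix preserves `qm`. -/
lemma qm_orth {n : ℕ} (R M : Matrix (Fin n) (Fin n) ℝ) (hR : Rᵀ * R = 1) :
    qm (R * M) = qm M := by
  unfold qm
  congr 1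
  apply Set.image_congr
  intro v _
  rw [← mulVec_mulVec, dotProduct_mulVec, ← mulVec_transpose, mulVec_mulVec, hR, one_mulVec]

lemma smul_quad {n : ℕ} (c : ℝ) (M : Matrix (Fin n) (Fin n) ℝ) (v : Fin n → ℝ) :
    ((c • M) *ᵥ v) ⬝ᵥ ((c • M) *ᵥ v) = c ^ 2 * ((M *ᵥ v) ⬝ᵥ (M *ᵥ v)) := by
  rw [smul_mulVec, smul_dotProduct, dotProduct_smul, smul_eq_mul, smul_eq_mul]
  ring

lemma qm_smul {m : ℕ} (c : ℝ) (M : Matrix (Fin (m + 1)) (Fin (m + 1)) ℝ) :
    qm (c • M) = c ^ 2 * qm M := by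
  apply le_antisymm
  · obtain ⟨v, hv, h⟩ := exists_min M
    rw [← h, ← smul_quad]
    exact qm_le _ hv
  · obtain ⟨v, hv, h⟩ := exists_min (c • M)
    rw [← h, smul_quad]
    exact mul_le_mul_of_nonneg_left (qm_le _ hv) (sq_nonneg c)

/-- The smallest singular value of the transpose is not larger. -/
lemma exists_left {m : ℕ} (M : Matrix (Fin (m + 1)) (Fin (m + 1)) ℝ) :
    ∃ u : Fin (m + 1) → ℝ, u ⬝ᵥ u = 1 ∧ (Mᵀ *ᵥ u) ⬝ᵥ (Mᵀ *ᵥ u) ≤ qm M := by
  obtain ⟨v, hv, hm⟩ := exists_min M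
  rcases (qm_nonneg M).eq_or_lt with h0 | h0
  · rw [← h0] at hm
    have hMv : M *ᵥ v = 0 := dot_self_eq_zero hm
    have hdet : M.det = 0 := by
      apply Matrix.exists_mulVec_eq_zero_iff.1
      refine ⟨v, ?_, hMv⟩
      rintro rfl
      simp at hv
    have hdet' : (Mᵀ).det = 0 := by rw [det_transpose, hdet]
    obtain ⟨z, hz, hz'⟩ := Matrix.exists_mulVec_eq_zero_iff.2 hdet'
    have hp := dot_self_pos hz
    refine ⟨(Real.sqrt (z ⬝ᵥ z))⁻¹ • z, ?_, ?_⟩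
    · rw [smul_dotProduct, dotProduct_smul, smul_eq_mul, smul_eq_mul]
      have := Real.mul_self_sqrt hp.le
      have hs := Real.sqrt_pos.2 hp
      field_simp
      rw [sq, this]
    · rw [mulVec_smul, hz', ← h0]
      simp
  · have hs := Real.sqrt_pos.2 h0
    have hss := Real.mul_self_sqrt h0.le
    refine ⟨(Real.sqrt (qm M))⁻¹ • (M *ᵥ v), ?_, ?_⟩
    · rw [smul_dotProduct, dotProduct_smul, smul_eq_mul, smul_eq_mul, hm]
      field_simp
      rw [sq, hss]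
    · have he : Mᵀ *ᵥ (M *ᵥ v) = qm M • v := by
        apply dotProduct_eq
        intro z
        rw [mulVec_transpose, ← dotProduct_mulVec, eigen M hv hm z, smul_dotProduct, smul_eq_mul]
      rw [mulVec_smul, he]
      simp only [smul_dotProduct, dotProduct_smul, smul_eq_mul, hv]
      apply le_of_eq
      field_simp
      rw [sq, hss]

/-- Reflections are orthogonal. -/
lemma refl_orth {n : ℕ} (z : Fin n → ℝ) (c : ℝ) (hc : c * (z ⬝ᵥ z) = 2) :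
    (1 - c • vecMulVec z z)ᵀ * (1 - c • vecMulVec z z) = 1 := by
  have h1 : (1 - c • vecMulVec z z)ᵀ = 1 - c • vecMulVec z z := by
    rw [transpose_sub, transpose_one, transpose_smul, transpose_vecMulVec]
  have h2 : (c • vecMulVec z z) * (c • vecMulVec z z) = (2 * c) • vecMulVec z z := by
    rw [smul_mul_smul_comm, vecMulVec_mul_vecMulVec, vecMulVec_smul, smul_smul, ← hc]
    congr 1
    ring
  rw [h1, sub_mul, mul_sub, mul_sub, h2, one_mul, one_mul, mul_one, two_mul, add_smul]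
  abel

/-- There is an orthogonal matrix with a prescribed first row. -/
lemma exists_orth {m : ℕ} (u : Fin (m + 1) → ℝ) (hu : u ⬝ᵥ u = 1) :
    ∃ R : Matrix (Fin (m + 1)) (Fin (m + 1)) ℝ, Rᵀ * R = 1 ∧ R 0 = u := by
  by_cases h : u = Pi.single 0 1
  · refine ⟨1, by simp, ?_⟩
    rw [h]
    ext j
    simp [Matrix.one_apply, Pi.single_apply, eq_comm]
  · set z := u - Pi.single 0 1 with hz
    have hz0 : z ≠ 0 := fun h' => h (sub_eq_zero.1 h')
    have hp := dot_self_pos hz0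
    have hzz : z ⬝ᵥ z = 2 - 2 * u 0 := by
      rw [hz, sub_dotProduct, dotProduct_sub, dotProduct_sub, hu]
      simp
      ring
    refine ⟨1 - (2 / (z ⬝ᵥ z)) • vecMulVec z z, refl_orth z _ (by field_simp), ?_⟩
    ext j
    have hz0' : z 0 = u 0 - 1 := by simp [hz]
    have hzj : z j = u j - (Pi.single 0 1 : Fin (m + 1) → ℝ) j := by simp [hz]
    have h1 : (1 : Matrix (Fin (m + 1)) (Fin (m + 1)) ℝ) 0 j
        = (Pi.single 0 1 : Fin (m + 1) → ℝ) j := by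
      simp [Matrix.one_apply, Pi.single_apply, eq_comm]
    have hne : 2 - 2 * u 0 ≠ 0 := by rw [← hzz]; exact hp.ne'
    rw [Matrix.sub_apply, Matrix.smul_apply, vecMulVec_apply, smul_eq_mul, h1, hzz, hz0', hzj]
    have hne' : 1 - u 0 ≠ 0 := fun h => hne (by linarith)
    field_simp
    ring

end Pool.Agent.Y974.SV
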