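import Pool.Agent.Y974.SV.Gauss

/-! The Cameron-Martin formula for Gaussian matrices. -/

set_option autoImplicit false

namespace Pool.Agent.Y974.SV

open Matrix MeasureTheory ProbabilityTheory

lemma lint_prod {n : ℕ} {E : Type*} [MeasurableSpace E] (μ : Fin n → Measure E)
    [∀ i, SigmaFinite (μ i)] (f : Fin n → E → ENNReal) (hf : ∀ i, Measurable (f i)) :
    ∫⁻ x : Fin n → E, ∏ i, f i (x i) ∂(Measure.pi μ) = ∏ i, ∫⁻ x, f i x ∂(μ i) := by
  induction n with
  | zero => simp
  | succ n ih =>
      calc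
        _ = ∫⁻ x : E × (Fin n → E), f 0 x.1 * ∏ i : Fin n, f (Fin.succ i) (x.2 i)
            ∂((μ 0).prod (Measure.pi (fun i => μ i.succ))) := by
          rw [← ((measurePreserving_piFinSuccAbove μ 0).symm).lintegral_comp_emb
            (MeasurableEquiv.measurableEmbedding _)]
          simp_rw [MeasurableEquiv.piFinSuccAbove_symm_apply, Fin.insertNthEquiv,
            Fin.prod_univ_succ, Fin.insertNth_zero, Equiv.coe_fn_mk, Fin.cons_succ,
            Fin.zero_succAbove, cast_eq, Fin.cons_zero]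
        _ = (∫⁻ x, f 0 x ∂μ 0) * ∏ i : Fin n, ∫⁻ (x : E), f (Fin.succ i) x ∂(μ i.succ) := by
          rw [← ih (fun i => μ i.succ) (fun i => f i.succ) (fun i => hf i.succ),
            ← lintegral_prod_mul (hf 0).aemeasurable]
          exact (Finset.measurable_fun_prod _ fun i _ =>
            (hf i.succ).comp (measurable_pi_apply i)).aemeasurable
        _ = ∏ i, ∫⁻ x, f i x ∂(μ i) := by rw [Fin.prod_univ_succ]

lemma pi_withDens {n : ℕ} {E : Type*} [MeasurableSpace E] (μ : Measure E)
    [SigmaFinite μ] (f : Fin n → E → ENNReal) (hf : ∀ i, Measurable (f i))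
    [∀ i, SigmaFinite (μ.withDensity (f i))] :
    Measure.pi (fun i => μ.withDensity (f i))
      = (Measure.pi (fun _ : Fin n => μ)).withDensity (fun x => ∏ i, f i (x i)) := by
  refine Measure.pi_eq fun s hs => ?_
  rw [withDensity_apply _ (MeasurableSet.univ_pi hs),
    ← lintegral_indicator (MeasurableSet.univ_pi hs)]
  have h : ∀ x : Fin n → E, (Set.univ.pi s).indicator (fun x => ∏ i, f i (x i)) x
      = ∏ i, (s i).indicator (f i) (x i) := by
    intro x
    by_cases hx : x ∈ Set.univ.pi s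
    · rw [Set.indicator_of_mem hx]
      apply Finset.prod_congr rfl
      intro i _
      rw [Set.indicator_of_mem (hx i (Set.mem_univ i))]
    · rw [Set.indicator_of_notMem hx]
      simp only [Set.mem_univ_pi, not_forall] at hx
      obtain ⟨i, hi⟩ := hx
      symm
      apply Finset.prod_eq_zero (Finset.mem_univ i)
      rw [Set.indicator_of_notMem hi]
  simp_rw [h]
  rw [lint_prod (fun _ => μ) _ (fun i => (hf i).indicator (hs i))]
  apply Finset.prod_congr rfl
  intro i _
  rw [lintegral_indicator (hs i), withDensity_apply _ (hs i)]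

/-- The density of a shifted one-dimensional Gaussian. -/
lemma gauss_dens (c : ℝ) :
    gaussianReal c 1 = (gaussianReal 0 1).withDensity
      (fun x => ENNReal.ofReal (Real.exp (c * x - c ^ 2 / 2))) := by
  rw [gaussianReal_of_var_ne_zero c one_ne_zero, gaussianReal_of_var_ne_zero 0 one_ne_zero,
    ← withDensity_mul _ (measurable_gaussianPDF 0 1) (by fun_prop)]
  congr 1
  ext x
  rw [Pi.mul_apply, gaussianPDF, gaussianPDF, ← ENNReal.ofReal_mul (gaussianPDFReal_nonneg 0 1 x)]
  congr 1
  rw [gaussianPDFReal, gaussianPDFReal]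
  rw [mul_assoc ((√(2 * Real.pi * ((1 : NNReal) : ℝ)))⁻¹), ← Real.exp_add]
  congr 2
  simp
  ring

lemma g1_shift {n : ℕ} (c : Fin n → ℝ) :
    (g1 n).map (fun x i => x i + c i) = (g1 n).withDensity
      (fun x => ENNReal.ofReal (Real.exp (c ⬝ᵥ x - c ⬝ᵥ c / 2))) := by
  have h1 : ∀ i, (gaussianReal 0 1).map (fun x => x + c i) = (gaussianReal 0 1).withDensity
      (fun x => ENNReal.ofReal (Real.exp (c i * x - c i ^ 2 / 2))) := by
    intro i
    rw [gaussianReal_map_add_const, zero_add, gauss_dens]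
  have : ∀ i, SigmaFinite ((gaussianReal 0 1).withDensity
      (fun x => ENNReal.ofReal (Real.exp (c i * x - c i ^ 2 / 2)))) := by
    intro i
    rw [← gauss_dens]
    infer_instance
  rw [Measure.pi_map_pi (f := fun i x => x + c i) (fun i => by fun_prop)]
  simp_rw [h1]
  rw [pi_withDens (gaussianReal 0 1) (fun i x =>
    ENNReal.ofReal (Real.exp (c i * x - c i ^ 2 / 2))) (fun i => by fun_prop)]
  congr 1
  ext x
  rw [← ENNReal.ofReal_prod_of_nonneg (fun i _ => (Real.exp_pos _).le), ← Real.exp_sum]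
  congr 2
  rw [Finset.sum_sub_distrib, ← Finset.sum_div]
  congr 2
  unfold dotProduct
  simp [sq]

lemma meas_shift {n : ℕ} (c : Fin n → ℝ) : Measurable (fun (x : Fin n → ℝ) j => x j + c j) := by
  fun_prop

lemma g2_shift {n : ℕ} (C : Fin n → Fin n → ℝ) :
    (g2 n).map (fun x i j => x i j + C i j) = (g2 n).withDensity
      (fun x => ENNReal.ofReal (Real.exp (fr (of C) (of x) - fr (of C) (of C) / 2))) := by
  have h1 : ∀ i, (g1 n).map (fun x j => x j + C i j) = (g1 n).withDensity
      (fun x => ENNReal.ofReal (Real.exp (C i ⬝ᵥ x - C i ⬝ᵥ C i / 2))) := fun i => g1_shift (C i)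
  have : ∀ i, SigmaFinite ((g1 n).withDensity
      (fun x => ENNReal.ofReal (Real.exp (C i ⬝ᵥ x - C i ⬝ᵥ C i / 2)))) := by
    intro i
    rw [← h1]
    have : IsProbabilityMeasure ((g1 n).map (fun x j => x j + C i j)) :=
      Measure.isProbabilityMeasure_map (meas_shift (C i)).aemeasurable
    infer_instance
  have hm : ∀ i, SigmaFinite ((g1 n).map (fun x j => x j + C i j)) := by
    intro i
    rw [h1]
    exact this i
  rw [Measure.pi_map_pi (f := fun i (x : Fin n → ℝ) j => x j + C i j)
    (fun i => (meas_shift (C i)).aemeasurable)]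
  simp_rw [h1]
  rw [pi_withDens (g1 n) (fun i x =>
    ENNReal.ofReal (Real.exp (C i ⬝ᵥ x - C i ⬝ᵥ C i / 2)))
    (fun i => by unfold dotProduct; fun_prop)]
  congr 1
  ext x
  rw [← ENNReal.ofReal_prod_of_nonneg (fun i _ => (Real.exp_pos _).le), ← Real.exp_sum]
  congr 2
  rw [Finset.sum_sub_distrib, ← Finset.sum_div]
  rfl

/-- The Cameron-Martin formula. -/
theorem cameron_martin {n : ℕ} (C : Fin n → Fin n → ℝ)
    (f : (Fin n → Fin n → ℝ) → ENNReal) (hf : Measurable f) :
    ∫⁻ x, f (fun i j => x i j + C i j) ∂(g2 n)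
      = ∫⁻ x, ENNReal.ofReal (Real.exp (fr (of C) (of x) - fr (of C) (of C) / 2)) * f x
          ∂(g2 n) := by
  have h : ∫⁻ x, f x ∂((g2 n).map (fun x i j => x i j + C i j))
      = ∫⁻ x, f x ∂((g2 n).withDensity
      (fun x => ENNReal.ofReal (Real.exp (fr (of C) (of x) - fr (of C) (of C) / 2)))) := by
    rw [g2_shift C]
  rw [lintegral_map hf (by fun_prop), lintegral_withDensity_eq_lintegral_mul _ _ hf] at h
  · exact h
  · exact ENNReal.measurable_ofReal.comp
      (Real.measurable_exp.comp ((continuous_fr_of (of C)).measurable.sub_const _))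

end Pool.Agent.Y974.SV
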