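import Pool.Agent.Y974.SV.Gauss

/-! Comparison: `s_min(M + c G)` is stochastically smaller than `|s_min(M) + c g|`. -/

set_option autoImplicit false

namespace Pool.Agent.Y974.SV

open Matrix MeasureTheory ProbabilityTheory

/-- Measure of an interval. -/
lemma gauss_Ioo {α β : ℝ} (h : α ≤ β) : gaussianReal 0 1 (Set.Ioo α β)
    = ENNReal.ofReal (∫ x in α..β, gaussianPDFReal 0 1 x) := by
  rw [gaussianReal_apply_eq_integral 0 one_ne_zero, intervalIntegral.integral_of_le h,
    integral_Ioc_eq_integral_Ioo]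

lemma set_eq {s c y : ℝ} (hc : 0 < c) :
    {g : ℝ | |s + c * g| < y} = Set.Ioo ((-y - s) / c) ((y - s) / c) := by
  ext g
  rw [Set.mem_setOf_eq, abs_lt, Set.mem_Ioo, div_lt_iff₀ hc, lt_div_iff₀ hc]
  constructor
  · rintro ⟨h1, h2⟩
    constructor <;> nlinarith
  · rintro ⟨h1, h2⟩
    constructor <;> nlinarith

lemma pdf_le {x y : ℝ} (h : x ^ 2 ≤ y ^ 2) : gaussianPDFReal 0 1 y ≤ gaussianPDFReal 0 1 x := by
  unfold gaussianPDFReal
  apply mul_le_mul_of_nonneg_left _ (by positivity)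
  apply Real.exp_le_exp.2
  simp
  linarith

lemma mono_pos {m s c y : ℝ} (hc : 0 < c) (hy : 0 < y) (hm : 0 ≤ m) (hms : m ≤ s) :
    gaussianReal 0 1 {g : ℝ | |s + c * g| < y} ≤ gaussianReal 0 1 {g : ℝ | |m + c * g| < y} := by
  rw [set_eq hc, set_eq hc, gauss_Ioo (by gcongr; linarith), gauss_Ioo (by gcongr; linarith)]
  apply ENNReal.ofReal_le_ofReal
  have hi : ∀ a b : ℝ, IntervalIntegrable (gaussianPDFReal 0 1) volume a b := fun a b =>
    (integrable_gaussianPDFReal 0 1).intervalIntegrable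
  have h1 := intervalIntegral.integral_interval_sub_interval_comm
    (hi ((-y - m) / c) ((y - m) / c)) (hi ((-y - s) / c) ((y - s) / c))
    (hi ((-y - m) / c) ((-y - s) / c))
  have h2 : ∫ x in ((y - s) / c)..((y - m) / c), gaussianPDFReal 0 1 (x - 2 * y / c)
      = ∫ x in ((-y - s) / c)..((-y - m) / c), gaussianPDFReal 0 1 x := by
    rw [intervalIntegral.integral_comp_sub_right]
    congr 1 <;> ring
  have h3 : ∫ x in ((y - s) / c)..((y - m) / c), gaussianPDFReal 0 1 (x - 2 * y / c)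
      ≤ ∫ x in ((y - s) / c)..((y - m) / c), gaussianPDFReal 0 1 x := by
    apply intervalIntegral.integral_mono_on (by gcongr)
    · exact ((integrable_gaussianPDFReal 0 1).comp_sub_right _).intervalIntegrable
    · exact hi _ _
    · intro x hx
      apply pdf_le
      have h4 : x ≤ y / c := by
        refine le_trans hx.2 ?_
        gcongr
        linarith
      have h5 : 0 < y / c := by positivity
      have h6 : 2 * y / c = 2 * (y / c) := by ring
      rw [h6]
      nlinarith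
  rw [intervalIntegral.integral_symm ((-y - s) / c) ((-y - m) / c),
    intervalIntegral.integral_symm ((y - s) / c) ((y - m) / c)] at h1
  linarith

lemma mono_abs {m s c y : ℝ} (hc : 0 < c) (hy : 0 < y) (hms : |m| ≤ s) :
    gaussianReal 0 1 {g : ℝ | |s + c * g| < y} ≤ gaussianReal 0 1 {g : ℝ | |m + c * g| < y} := by
  rcases le_total 0 m with h | h
  · exact mono_pos hc hy h (by rwa [abs_of_nonneg h] at hms)
  · have h1 := mono_pos (s := s) hc hy (neg_nonneg.2 h) (by rwa [abs_of_nonpos h] at hms)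
    refine le_trans h1 (le_of_eq ?_)
    have h2 : {g : ℝ | |-m + c * g| < y} = (fun g => -g) ⁻¹' {g : ℝ | |m + c * g| < y} := by
      ext g
      simp only [Set.mem_setOf_eq, Set.mem_preimage]
      rw [← abs_neg (-m + c * g)]
      ring_nf
    have h3 : gaussianReal 0 1 = (gaussianReal 0 1).map (fun g => -g) := by
      rw [gaussianReal_map_neg, neg_zero]
    rw [h2]
    conv_rhs => rw [h3]
    rw [Measure.map_apply measurable_neg]
    rw [set_eq hc]
    exact measurableSet_Ioo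

/-- A unit vector orthogonal to `m` given vectors. -/
lemma perp {m : ℕ} (r : Fin m → Fin (m + 1) → ℝ) :
    ∃ w : Fin (m + 1) → ℝ, w ⬝ᵥ w = 1 ∧ ∀ i, r i ⬝ᵥ w = 0 := by
  let K : Matrix (Fin (m + 1)) (Fin (m + 1)) ℝ := of (Fin.cons 0 r)
  have hdet : K.det = 0 := det_eq_zero_of_row_eq_zero 0 (fun j => by simp [K])
  obtain ⟨z, hz, hz'⟩ := Matrix.exists_mulVec_eq_zero_iff.2 hdet
  have hp := dot_self_pos hz
  have hs := Real.sqrt_pos.2 hp
  refine ⟨(Real.sqrt (z ⬝ᵥ z))⁻¹ • z, ?_, ?_⟩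
  · rw [smul_dotProduct, dotProduct_smul, smul_eq_mul, smul_eq_mul]
    have := Real.mul_self_sqrt hp.le
    field_simp
    rw [sq, this]
  · intro i
    have h := congrFun hz' i.succ
    have h2 : (K *ᵥ z) i.succ = r i ⬝ᵥ z := by
      simp [K, mulVec]
    rw [h2] at h
    rw [dotProduct_smul, h]
    simp

lemma quad_perp {m : ℕ} (X : Matrix (Fin (m + 1)) (Fin (m + 1)) ℝ) (w : Fin (m + 1) → ℝ)
    (h : ∀ i : Fin m, X i.succ ⬝ᵥ w = 0) :
    (X *ᵥ w) ⬝ᵥ (X *ᵥ w) = (X 0 ⬝ᵥ w) ^ 2 := by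
  rw [dotProduct, Fin.sum_univ_succ]
  have : ∑ i : Fin m, (X *ᵥ w) i.succ * (X *ᵥ w) i.succ = 0 := by
    apply Finset.sum_eq_zero
    intro i _
    have : (X *ᵥ w) i.succ = 0 := h i
    rw [this, mul_zero]
  rw [this, add_zero, sq]
  rfl

/-- Splitting off the first row. -/
lemma split_row {m : ℕ} {S : Set (Fin (m + 1) → Fin (m + 1) → ℝ)} (hS : MeasurableSet S) :
    g2 (m + 1) S = ∫⁻ r : Fin m → Fin (m + 1) → ℝ, g1 (m + 1) {x | Fin.cons x r ∈ S}
      ∂(Measure.pi (fun _ : Fin m => g1 (m + 1))) := by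
  have h := (measurePreserving_piFinSuccAbove (fun _ : Fin (m + 1) => g1 (m + 1)) 0).symm
  rw [← h.measure_preimage hS.nullMeasurableSet]
  rw [Measure.prod_apply_symm ((MeasurableEquiv.measurable _) hS)]
  apply lintegral_congr
  intro r
  congr 1
  ext x
  simp [MeasurableEquiv.piFinSuccAbove_symm_apply, Fin.insertNthEquiv]

lemma cont_qm_aff' {n : ℕ} (B : Matrix (Fin n) (Fin n) ℝ) (c : ℝ) :
    Continuous (fun G : Fin n → Fin n → ℝ => qm (B + c • of G)) := by
  have h : Continuous (fun G : Fin n → Fin n → ℝ => (of G : Matrix (Fin n) (Fin n) ℝ)) :=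
    continuous_id
  exact continuous_qm.comp (continuous_const.add (h.const_smul c))

/-- The comparison theorem. -/
theorem comp {m : ℕ} (M : Matrix (Fin (m + 1)) (Fin (m + 1)) ℝ) {c y : ℝ} (hc : 0 < c)
    (hy : 0 < y) :
    gaussianReal 0 1 {g : ℝ | |Real.sqrt (qm M) + c * g| < y}
      ≤ g2 (m + 1) {G | qm (M + c • of G) < y ^ 2} := by
  obtain ⟨u, hu, hMu⟩ := exists_left M
  obtain ⟨R, hR, hR0⟩ := exists_orth u hu
  have hR' : R * Rᵀ = 1 := mul_eq_one_comm.1 hR
  set N := R * M with hN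
  have hN0 : N 0 ⬝ᵥ N 0 ≤ qm M := by
    have : N 0 = Mᵀ *ᵥ u := by
      ext j
      rw [mulVec_transpose, hN, ← hR0]
      rfl
    rw [this]
    exact hMu
  have hS : MeasurableSet {G : Fin (m + 1) → Fin (m + 1) → ℝ | qm (N + c • of G) < y ^ 2} :=
    (isOpen_lt (cont_qm_aff' N c) continuous_const).measurableSet
  have e1 : g2 (m + 1) {G | qm (M + c • of G) < y ^ 2}
      = g2 (m + 1) {G | qm (N + c • of G) < y ^ 2} := by
    rw [← (rot R hR').measure_preimage hS.nullMeasurableSet]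
    congr 1
    ext G
    simp only [Set.mem_setOf_eq, Set.mem_preimage]
    rw [of_lmul, hN, ← Matrix.mul_smul, ← Matrix.mul_add, qm_orth _ _ hR]
  rw [e1, split_row hS]
  have key : ∀ r : Fin m → Fin (m + 1) → ℝ,
      gaussianReal 0 1 {g : ℝ | |Real.sqrt (qm M) + c * g| < y}
      ≤ g1 (m + 1) {x | (Fin.cons x r : Fin (m + 1) → Fin (m + 1) → ℝ) ∈
        {G : Fin (m + 1) → Fin (m + 1) → ℝ | qm (N + c • of G) < y ^ 2}} := by
    intro r
    obtain ⟨w, hw, hwr⟩ := perp (fun i : Fin m => N i.succ + c • r i)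
    have h1 : |N 0 ⬝ᵥ w| ≤ Real.sqrt (qm M) := by
      apply Real.abs_le_sqrt
      have := dot_sq_le (N 0) w
      rw [hw, mul_one] at this
      exact this.trans hN0
    refine (mono_abs hc hy h1).trans ?_
    have h2 : MeasurableSet {g : ℝ | |N 0 ⬝ᵥ w + c * g| < y} := by
      rw [set_eq hc]
      exact measurableSet_Ioo
    rw [← (marg w hw).measure_preimage h2.nullMeasurableSet]
    apply measure_mono
    intro x hx
    simp only [Set.mem_setOf_eq, Set.mem_preimage] at hx ⊢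
    refine lt_of_le_of_lt (qm_le _ hw) ?_
    rw [quad_perp _ _ (fun i => ?_)]
    · have h3 : (N + c • of (Fin.cons x r : Fin (m + 1) → Fin (m + 1) → ℝ)) 0 ⬝ᵥ w
          = N 0 ⬝ᵥ w + c * (w ⬝ᵥ x) := by
        have : (N + c • of (Fin.cons x r : Fin (m + 1) → Fin (m + 1) → ℝ)) 0
            = N 0 + c • x := by
          ext j
          simp
        rw [this, add_dotProduct, smul_dotProduct, smul_eq_mul, dotProduct_comm x w]
      rw [h3]
      exact sq_lt_sq' (abs_lt.1 hx).1 (abs_lt.1 hx).2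
    · have : (N + c • of (Fin.cons x r : Fin (m + 1) → Fin (m + 1) → ℝ)) i.succ
          = N i.succ + c • r i := by
        ext j
        simp
      rw [this]
      exact hwr i
  calc gaussianReal 0 1 {g : ℝ | |Real.sqrt (qm M) + c * g| < y}
      = ∫⁻ _ : Fin m → Fin (m + 1) → ℝ, gaussianReal 0 1 {g : ℝ | |Real.sqrt (qm M) + c * g| < y}
        ∂(Measure.pi (fun _ : Fin m => g1 (m + 1))) := by simp
    _ ≤ _ := lintegral_mono key

/-- The resulting inequality for the centred matrix. -/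
theorem comp2 {m : ℕ} {c y : ℝ} (hc : 0 < c) (hc1 : c < 1) (hy : 0 < y) :
    ∫⁻ g : ℝ, g2 (m + 1) {G | |Real.sqrt (qm (of G)) + c * g| < y} ∂(gaussianReal 0 1)
      ≤ g2 (m + 1) {G | qm (of G) < y ^ 2} := by
  set a := Real.sqrt (1 - c ^ 2) with ha
  have ha2 : a ^ 2 = 1 - c ^ 2 := Real.sq_sqrt (by nlinarith)
  have hab : a ^ 2 + c ^ 2 = 1 := by rw [ha2]; ring
  have hcof : Continuous (fun G : Fin (m + 1) → Fin (m + 1) → ℝ =>
    (of G : Matrix (Fin (m + 1)) (Fin (m + 1)) ℝ)) := continuous_id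
  have hS : MeasurableSet {G : Fin (m + 1) → Fin (m + 1) → ℝ | qm (of G) < y ^ 2} :=
    (isOpen_lt (continuous_qm.comp hcof) continuous_const).measurableSet
  have hT : MeasurableSet ((fun p : (Fin (m + 1) → Fin (m + 1) → ℝ) ×
      (Fin (m + 1) → Fin (m + 1) → ℝ) => a • p.1 + c • p.2) ⁻¹' {G | qm (of G) < y ^ 2}) :=
    (gsum a c hab).measurable hS
  rw [← (gsum a c hab).measure_preimage hS.nullMeasurableSet, Measure.prod_apply hT]
  have h1 : ∀ G : Fin (m + 1) → Fin (m + 1) → ℝ,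
      gaussianReal 0 1 {g : ℝ | |Real.sqrt (qm (of G)) + c * g| < y}
      ≤ g2 (m + 1) (Prod.mk G ⁻¹' ((fun p : (Fin (m + 1) → Fin (m + 1) → ℝ) ×
      (Fin (m + 1) → Fin (m + 1) → ℝ) => a • p.1 + c • p.2) ⁻¹' {G | qm (of G) < y ^ 2})) := by
    intro G
    have h2 : |Real.sqrt (qm (a • of G))| ≤ Real.sqrt (qm (of G)) := by
      rw [abs_of_nonneg (Real.sqrt_nonneg _)]
      apply Real.sqrt_le_sqrt
      rw [qm_smul, ha2]
      have := qm_nonneg (of G)
      nlinarith [sq_nonneg c]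
    refine (mono_abs hc hy h2).trans ((comp (a • of G) hc hy).trans (le_of_eq ?_))
    rfl
  refine le_trans (le_of_eq ?_) (lintegral_mono h1)
  have hP : MeasurableSet {p : (Fin (m + 1) → Fin (m + 1) → ℝ) × ℝ |
      |Real.sqrt (qm (of p.1)) + c * p.2| < y} := by
    apply IsOpen.measurableSet
    apply isOpen_lt _ continuous_const
    have : Continuous (fun p : (Fin (m + 1) → Fin (m + 1) → ℝ) × ℝ => qm (of p.1)) :=
      continuous_qm.comp (hcof.comp continuous_fst)
    fun_prop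
  have e1 := Measure.prod_apply (μ := g2 (m + 1)) (ν := gaussianReal 0 1) hP
  have e2 := Measure.prod_apply_symm (μ := g2 (m + 1)) (ν := gaussianReal 0 1) hP
  rw [e1] at e2
  exact e2.symm

end Pool.Agent.Y974.SV
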