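import Pool.Agent.Y974.SV.Basic

/-! Gaussian measures on vectors and matrices: characteristic functions, rotations, sums. -/

set_option autoImplicit false

namespace Pool.Agent.Y974.SV

open Matrix MeasureTheory ProbabilityTheory

/-- Standard Gaussian vectors. -/
noncomputable abbrev g1 (n : ℕ) : Measure (Fin n → ℝ) :=
  Measure.pi (fun _ : Fin n => gaussianReal 0 1)

/-- Standard Gaussian matrices. -/
noncomputable abbrev g2 (n : ℕ) : Measure (Fin n → Fin n → ℝ) :=
  Measure.pi (fun _ : Fin n => Measure.pi (fun _ : Fin n => gaussianReal 0 1))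

/-- Frobenius inner product. -/
def fr {n : ℕ} (A B : Matrix (Fin n) (Fin n) ℝ) : ℝ := ∑ i, ∑ j, A i j * B i j

lemma fr_eq_trace {n : ℕ} (A B : Matrix (Fin n) (Fin n) ℝ) : fr A B = (Aᵀ * B).trace := by
  unfold fr trace
  simp only [diag_apply, mul_apply, transpose_apply]
  exact Finset.sum_comm

lemma fr_mul {n : ℕ} (R A B : Matrix (Fin n) (Fin n) ℝ) : fr A (R * B) = fr (Rᵀ * A) B := by
  rw [fr_eq_trace, fr_eq_trace, transpose_mul, transpose_transpose, Matrix.mul_assoc]

lemma fr_orth {n : ℕ} (R A : Matrix (Fin n) (Fin n) ℝ) (h : Rᵀ * R = 1) :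
    fr (R * A) (R * A) = fr A A := by
  rw [fr_mul, ← Matrix.mul_assoc, h, Matrix.one_mul]

lemma fr_comm {n : ℕ} (A B : Matrix (Fin n) (Fin n) ℝ) : fr A B = fr B A := by
  unfold fr
  simp only [mul_comm]

lemma fr_nonneg {n : ℕ} (A : Matrix (Fin n) (Fin n) ℝ) : 0 ≤ fr A A :=
  Finset.sum_nonneg fun _ _ => Finset.sum_nonneg fun _ _ => mul_self_nonneg _

lemma charv {n : ℕ} (t : Fin n → ℝ) :
    ∫ x, Complex.exp ((t ⬝ᵥ x : ℝ) * Complex.I) ∂(g1 n) = Complex.exp (-(t ⬝ᵥ t : ℝ) / 2) := by
  have h : ∀ x : Fin n → ℝ, Complex.exp ((t ⬝ᵥ x : ℝ) * Complex.I)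
      = ∏ j, Complex.exp ((t j : ℝ) * (x j : ℝ) * Complex.I) := by
    intro x
    rw [← Complex.exp_sum, dotProduct, Complex.ofReal_sum, Finset.sum_mul]
    simp
  simp_rw [h]
  rw [integral_fintype_prod_eq_prod (f := fun j (y : ℝ) =>
    Complex.exp ((t j : ℝ) * (y : ℝ) * Complex.I))]
  simp_rw [← charFun_apply_real, charFun_gaussianReal]
  rw [← Complex.exp_sum]
  congr 1
  rw [dotProduct, Complex.ofReal_sum, ← Finset.sum_neg_distrib, Finset.sum_div]
  apply Finset.sum_congr rfl
  intro i _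
  simp
  ring

lemma charm {n : ℕ} (A : Matrix (Fin n) (Fin n) ℝ) :
    ∫ x, Complex.exp ((fr A (of x) : ℝ) * Complex.I) ∂(g2 n) = Complex.exp (-(fr A A : ℝ) / 2) := by
  have h : ∀ x : Fin n → Fin n → ℝ, Complex.exp ((fr A (of x) : ℝ) * Complex.I)
      = ∏ i, Complex.exp (((A i) ⬝ᵥ (x i) : ℝ) * Complex.I) := by
    intro x
    rw [← Complex.exp_sum, fr, Complex.ofReal_sum, Finset.sum_mul]
    simp only [dotProduct, of_apply]
  simp_rw [h]
  rw [integral_fintype_prod_eq_prod (f := fun i (y : Fin n → ℝ) =>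
    Complex.exp (((A i) ⬝ᵥ y : ℝ) * Complex.I))]
  simp_rw [charv]
  rw [← Complex.exp_sum]
  congr 1
  rw [fr, Complex.ofReal_sum, ← Finset.sum_neg_distrib, Finset.sum_div]
  rfl

/-- The matrix of coefficients of a linear functional. -/
noncomputable def coef {n : ℕ} (L : StrongDual ℝ (Fin n → Fin n → ℝ)) :
    Matrix (Fin n) (Fin n) ℝ :=
  fun i j => L (Pi.single i (Pi.single j 1))

lemma coef_spec {n : ℕ} (L : StrongDual ℝ (Fin n → Fin n → ℝ)) (x : Fin n → Fin n → ℝ) :
    L x = fr (coef L) (of x) := by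
  have hx : x = ∑ i, ∑ j, x i j • (Pi.single i (Pi.single j 1) : Fin n → Fin n → ℝ) := by
    ext a b
    simp only [Finset.sum_apply, Pi.smul_apply, smul_eq_mul]
    rw [Finset.sum_eq_single a]
    · rw [Finset.sum_eq_single b]
      · simp
      · intro j _ hj
        simp [Ne.symm hj]
      · simp
    · intro i _ hi
      apply Finset.sum_eq_zero
      intro j _
      simp [Ne.symm hi]
    · simp
  conv_lhs => rw [hx]
  rw [map_sum]
  unfold fr
  apply Finset.sum_congr rfl
  intro i _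
  rw [map_sum]
  apply Finset.sum_congr rfl
  intro j _
  rw [map_smul, smul_eq_mul, mul_comm]
  rfl

/-- A measure on matrices with the characteristic function of `g2` is `g2`. -/
lemma g2_ext {n : ℕ} (μ : Measure (Fin n → Fin n → ℝ)) [IsFiniteMeasure μ]
    (h : ∀ A : Matrix (Fin n) (Fin n) ℝ,
      ∫ x, Complex.exp ((fr A (of x) : ℝ) * Complex.I) ∂μ = Complex.exp (-(fr A A : ℝ) / 2)) :
    μ = g2 n := by
  apply Measure.ext_of_charFunDual
  ext L
  rw [charFunDual_apply, charFunDual_apply]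
  simp_rw [coef_spec L]
  rw [h, charm]

lemma continuous_fr {n : ℕ} :
    Continuous (fun p : Matrix (Fin n) (Fin n) ℝ × Matrix (Fin n) (Fin n) ℝ => fr p.1 p.2) := by
  unfold fr
  fun_prop

lemma measurable_of_cont {n : ℕ} {α : Type*} [TopologicalSpace α] [MeasurableSpace α]
    [BorelSpace α] {f : (Fin n → Fin n → ℝ) → α} (hf : Continuous f) : Measurable f :=
  hf.measurable

lemma continuous_fr_of {n : ℕ} (A : Matrix (Fin n) (Fin n) ℝ) :
    Continuous (fun x : Fin n → Fin n → ℝ => fr A (of x)) := by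
  unfold fr
  simp only [of_apply]
  fun_prop

/-- Left multiplication as a map on functions. -/
def lmul {n : ℕ} (R : Matrix (Fin n) (Fin n) ℝ) (G : Fin n → Fin n → ℝ) : Fin n → Fin n → ℝ :=
  fun i j => ∑ k, R i k * G k j

lemma of_lmul {n : ℕ} (R : Matrix (Fin n) (Fin n) ℝ) (G : Fin n → Fin n → ℝ) :
    of (lmul R G) = R * of G := by
  ext i j
  simp [lmul, mul_apply]

lemma continuous_lmul {n : ℕ} (R : Matrix (Fin n) (Fin n) ℝ) : Continuous (lmul R) := by
  unfold lmul
  fun_prop

/-- Rotation invariance. -/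
theorem rot {n : ℕ} (R : Matrix (Fin n) (Fin n) ℝ) (h : R * Rᵀ = 1) :
    MeasurePreserving (lmul R) (g2 n) (g2 n) := by
  refine ⟨(continuous_lmul R).measurable, ?_⟩
  haveI : IsFiniteMeasure ((g2 n).map (lmul R)) := inferInstance
  apply g2_ext
  intro A
  rw [integral_map (continuous_lmul R).measurable.aemeasurable]
  · simp_rw [of_lmul, fr_mul]
    rw [charm]
    congr 3
    apply congrArg
    exact fr_orth Rᵀ A (by rw [transpose_transpose]; exact h)
  · apply Continuous.aestronglyMeasurable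
    have := continuous_fr_of A
    fun_prop

/-- Sums of independent Gaussian matrices. -/
theorem gsum {n : ℕ} (a b : ℝ) (h : a ^ 2 + b ^ 2 = 1) :
    MeasurePreserving (fun p : (Fin n → Fin n → ℝ) × (Fin n → Fin n → ℝ) => a • p.1 + b • p.2)
      ((g2 n).prod (g2 n)) (g2 n) := by
  have hc : Continuous (fun p : (Fin n → Fin n → ℝ) × (Fin n → Fin n → ℝ) =>
    a • p.1 + b • p.2) := by fun_prop
  refine ⟨hc.measurable, ?_⟩
  haveI : IsFiniteMeasure (((g2 n).prod (g2 n)).map
    (fun p : (Fin n → Fin n → ℝ) × (Fin n → Fin n → ℝ) => a • p.1 + b • p.2)) := inferInstance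
  apply g2_ext
  intro A
  rw [integral_map hc.measurable.aemeasurable]
  · have h1 : ∀ p : (Fin n → Fin n → ℝ) × (Fin n → Fin n → ℝ),
        Complex.exp ((fr A (of (a • p.1 + b • p.2)) : ℝ) * Complex.I)
        = Complex.exp ((fr (a • A) (of p.1) : ℝ) * Complex.I)
          * Complex.exp ((fr (b • A) (of p.2) : ℝ) * Complex.I) := by
      intro p
      rw [← Complex.exp_add, ← add_mul, ← Complex.ofReal_add]
      congr 3
      unfold fr
      rw [← Finset.sum_add_distrib]
      apply Finset.sum_congr rfl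
      intro i _
      rw [← Finset.sum_add_distrib]
      apply Finset.sum_congr rfl
      intro j _
      simp
      ring
    simp_rw [h1]
    rw [integral_prod_mul (fun x : Fin n → Fin n → ℝ =>
      Complex.exp ((fr (a • A) (of x) : ℝ) * Complex.I)) (fun x : Fin n → Fin n → ℝ =>
      Complex.exp ((fr (b • A) (of x) : ℝ) * Complex.I)), charm, charm, ← Complex.exp_add]
    congr 1
    have h2 : ∀ c : ℝ, fr (c • A) (c • A) = c ^ 2 * fr A A := by
      intro c
      unfold fr
      rw [Finset.mul_sum]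
      apply Finset.sum_congr rfl
      intro i _
      rw [Finset.mul_sum]
      apply Finset.sum_congr rfl
      intro j _
      simp
      ring
    rw [h2, h2]
    have h3 : ((a : ℂ)) ^ 2 + (b : ℂ) ^ 2 = 1 := by exact_mod_cast h
    push_cast
    linear_combination (-(fr A A : ℂ) / 2) * h3
  · apply Continuous.aestronglyMeasurable
    have := continuous_fr_of A
    fun_prop

/-- One-dimensional marginals. -/
theorem marg {n : ℕ} (w : Fin n → ℝ) (hw : w ⬝ᵥ w = 1) :
    MeasurePreserving (fun x : Fin n → ℝ => w ⬝ᵥ x) (g1 n) (gaussianReal 0 1) := by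
  have hc : Continuous (fun x : Fin n → ℝ => w ⬝ᵥ x) := by
    unfold dotProduct
    fun_prop
  refine ⟨hc.measurable, ?_⟩
  haveI : IsFiniteMeasure ((g1 n).map (fun x : Fin n → ℝ => w ⬝ᵥ x)) := inferInstance
  apply Measure.ext_of_charFun
  ext t
  rw [charFun_apply_real, charFun_gaussianReal, integral_map hc.measurable.aemeasurable]
  · have h1 : ∀ x : Fin n → ℝ, Complex.exp ((t : ℂ) * ((w ⬝ᵥ x : ℝ) : ℂ) * Complex.I)
        = Complex.exp (((t • w) ⬝ᵥ x : ℝ) * Complex.I) := by
      intro x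
      rw [smul_dotProduct, smul_eq_mul, Complex.ofReal_mul]
    simp_rw [h1]
    rw [charv, smul_dotProduct, dotProduct_smul, hw]
    simp
    congr 1
    ring
  · apply Continuous.aestronglyMeasurable
    fun_prop

end Pool.Agent.Y974.SV
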