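import Mathlib

/-! A left invariant probability measure on the orthogonal group. -/

set_option autoImplicit false

namespace Pool.Agent.Y974.SV

open Matrix MeasureTheory

/-- The orthogonal group. -/
abbrev OG (n : ℕ) := unitary (Matrix (Fin n) (Fin n) ℝ)

instance (n : ℕ) : CompactSpace (OG n) := by
  refine isCompact_iff_compactSpace (s := (unitary (Matrix (Fin n) (Fin n) ℝ) :
    Set (Matrix (Fin n) (Fin n) ℝ))).1 ?_
  have hK : IsCompact (Set.pi Set.univ fun _ : Fin n => Set.pi Set.univ fun _ : Fin n =>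
      Set.Icc (-1 : ℝ) 1) :=
    isCompact_univ_pi fun _ => isCompact_univ_pi fun _ => isCompact_Icc
  refine IsCompact.of_isClosed_subset (X := Matrix (Fin n) (Fin n) ℝ) hK isClosed_unitary ?_
  intro U hU i _ j _
  have := entry_norm_bound_of_unitary (𝕜 := ℝ) hU i j
  rw [Real.norm_eq_abs, abs_le] at this
  exact this

instance (n : ℕ) : MeasurableSpace (OG n) := borel _

instance (n : ℕ) : BorelSpace (OG n) := ⟨rfl⟩

instance (n : ℕ) : SecondCountableTopology (Matrix (Fin n) (Fin n) ℝ) :=
  inferInstanceAs (SecondCountableTopology (Fin n → Fin n → ℝ))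

instance (n : ℕ) : SecondCountableTopology (OG n) :=
  TopologicalSpace.Subtype.secondCountableTopology _

theorem exists_haar (n : ℕ) : ∃ μ : Measure (OG n), IsProbabilityMeasure μ ∧
    ∀ H : OG n, MeasurePreserving (fun R => H * R) μ μ := by
  let K : TopologicalSpace.PositiveCompacts (OG n) := ⊤
  refine ⟨Measure.haarMeasure K, ⟨?_⟩, fun H => ?_⟩
  · have := Measure.haarMeasure_self (K₀ := K)
    simpa [K] using this
  · exact measurePreserving_mul_left _ H

lemma OG_mul {n : ℕ} (R : OG n) : (R : Matrix (Fin n) (Fin n) ℝ)ᵀ * R = 1 := by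
  have := Unitary.coe_star_mul_self R
  exact this

lemma OG_mul' {n : ℕ} (R : OG n) : (R : Matrix (Fin n) (Fin n) ℝ) * (R : Matrix (Fin n) (Fin n) ℝ)ᵀ = 1 := by
  have := Unitary.coe_mul_star_self R
  exact this

end Pool.Agent.Y974.SV
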