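import Pool.Agent.Y974.SV.CM
import Pool.Agent.Y974.SV.Haar

/-! The smallest singular value of `A + G` is stochastically larger than that of `G`. -/

set_option autoImplicit false

namespace Pool.Agent.Y974.SV

open Matrix MeasureTheory ProbabilityTheory

/-- The cutoff. -/
noncomputable def theta (a b x : ℝ) : ℝ := max 0 (1 - (max (x - a) 0) ^ 2 / b ^ 2)

lemma theta_nonneg (a b x : ℝ) : 0 ≤ theta a b x := le_max_left _ _

lemma theta_le_one (a b x : ℝ) : theta a b x ≤ 1 := by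
  unfold theta
  apply max_le zero_le_one
  have : 0 ≤ (max (x - a) 0) ^ 2 / b ^ 2 := by positivity
  linarith

lemma theta_anti (a b : ℝ) {x y : ℝ} (h : x ≤ y) : theta a b y ≤ theta a b x := by
  unfold theta
  apply max_le_max le_rfl
  have h1 : max (x - a) 0 ≤ max (y - a) 0 := max_le_max (by linarith) le_rfl
  have h0 : 0 ≤ max (x - a) 0 := le_max_right _ _
  have h2 : (max (x - a) 0) ^ 2 ≤ (max (y - a) 0) ^ 2 := pow_le_pow_left₀ h0 h1 2
  have h3 : (max (x - a) 0) ^ 2 / b ^ 2 ≤ (max (y - a) 0) ^ 2 / b ^ 2 :=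
    div_le_div_of_nonneg_right h2 (sq_nonneg b)
  linarith

lemma theta_one (a b : ℝ) {x : ℝ} (h : x ≤ a) : theta a b x = 1 := by
  unfold theta
  rw [max_eq_right (a := x - a) (by linarith)]
  simp

lemma theta_zero (a : ℝ) {b x : ℝ} (hb : 0 < b) (h : a + b ≤ x) : theta a b x = 0 := by
  unfold theta
  apply max_eq_left
  have h1 : b ≤ max (x - a) 0 := le_trans (by linarith) (le_max_left _ _)
  have h2 : b ^ 2 ≤ (max (x - a) 0) ^ 2 := pow_le_pow_left₀ hb.le h1 2
  have : 1 ≤ (max (x - a) 0) ^ 2 / b ^ 2 := by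
    rw [le_div_iff₀ (by positivity)]
    linarith
  linarith

lemma continuous_theta (a b : ℝ) : Continuous (theta a b) := by
  unfold theta
  fun_prop

lemma theta_lower (a : ℝ) {b x : ℝ} (h : ℝ) (hb : 0 < b) (hx : x < a + b) :
    theta a b x - theta a b (x + h) ≤ 2 * max (x - a) 0 / b ^ 2 * h + h ^ 2 / b ^ 2 := by
  set z := max (x - a) 0 with hz
  have hz0 : 0 ≤ z := le_max_right _ _
  have hzb : z ≤ b := max_le (by linarith) hb.le
  have h1 : theta a b x = 1 - z ^ 2 / b ^ 2 := by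
    unfold theta
    apply max_eq_right
    have : z ^ 2 / b ^ 2 ≤ 1 := by
      rw [div_le_one (by positivity)]
      exact pow_le_pow_left₀ hz0 hzb 2
    linarith
  have h2 : (max (x + h - a) 0) ^ 2 ≤ (z + h) ^ 2 := by
    rcases le_total (x + h - a) 0 with h3 | h3
    · rw [max_eq_right h3]
      simp only [ne_eq, OfNat.ofNat_ne_zero, not_false_eq_true, zero_pow]
      positivity
    · rw [max_eq_left h3]
      apply pow_le_pow_left₀ h3
      have : x - a ≤ z := le_max_left _ _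
      linarith
  have h4 : 1 - (z + h) ^ 2 / b ^ 2 ≤ theta a b (x + h) := by
    refine le_trans ?_ (le_max_right _ _)
    have : (max (x + h - a) 0) ^ 2 / b ^ 2 ≤ (z + h) ^ 2 / b ^ 2 :=
      div_le_div_of_nonneg_right h2 (sq_nonneg b)
    linarith
  have h5 : 2 * z / b ^ 2 * h + h ^ 2 / b ^ 2 = (z + h) ^ 2 / b ^ 2 - z ^ 2 / b ^ 2 := by
    ring
  rw [h5, h1]
  linarith

/-! ### The pairing -/

lemma fr_vecMulVec {n : ℕ} (u v : Fin n → ℝ) (B : Matrix (Fin n) (Fin n) ℝ) :
    fr (vecMulVec u v) B = u ⬝ᵥ (B *ᵥ v) := by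
  unfold fr dotProduct mulVec dotProduct
  apply Finset.sum_congr rfl
  intro i _
  rw [Finset.mul_sum]
  apply Finset.sum_congr rfl
  intro j _
  rw [vecMulVec_apply]
  ring

lemma fr_sub_left {n : ℕ} (A B C : Matrix (Fin n) (Fin n) ℝ) :
    fr (A - B) C = fr A C - fr B C := by
  rw [fr_eq_trace, fr_eq_trace, fr_eq_trace, transpose_sub, sub_mul, trace_sub]

lemma fr_smul_left {n : ℕ} (c : ℝ) (A C : Matrix (Fin n) (Fin n) ℝ) :
    fr (c • A) C = c * fr A C := by
  rw [fr_eq_trace, fr_eq_trace, transpose_smul, smul_mul, trace_smul, smul_eq_mul]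

lemma int_cont {n : ℕ} (μ : Measure (OG n)) [IsProbabilityMeasure μ] {f : OG n → ℝ}
    (hf : Continuous f) : Integrable f μ :=
  hf.integrable_of_hasCompactSupport (HasCompactSupport.of_compactSpace f)

lemma cont_fr_right {n : ℕ} (M A : Matrix (Fin n) (Fin n) ℝ) :
    Continuous (fun R : OG n => fr M ((R : Matrix (Fin n) (Fin n) ℝ) * A)) :=
  continuous_fr.comp (Continuous.prodMk continuous_const
    (continuous_subtype_val.mul continuous_const))

lemma cont_x {n : ℕ} (u w : Fin n → ℝ) :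
    Continuous (fun R : OG n => u ⬝ᵥ ((R : Matrix (Fin n) (Fin n) ℝ) *ᵥ w)) := by
  have : ∀ R : OG n, u ⬝ᵥ ((R : Matrix (Fin n) (Fin n) ℝ) *ᵥ w)
      = fr (vecMulVec u w) (R : Matrix (Fin n) (Fin n) ℝ) := fun R => (fr_vecMulVec _ _ _).symm
  simp_rw [this]
  exact continuous_fr.comp (Continuous.prodMk continuous_const continuous_subtype_val)

lemma pair_nonneg {n : ℕ} (μ : Measure (OG n)) [IsProbabilityMeasure μ]
    (hμ : ∀ H : OG n, MeasurePreserving (fun R => H * R) μ μ)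
    (M A : Matrix (Fin n) (Fin n) ℝ) {v : Fin n → ℝ} (hv : v ⬝ᵥ v = 1)
    (hm : (M *ᵥ v) ⬝ᵥ (M *ᵥ v) = qm M) (T : ℝ) (hT : 0 ≤ T) :
    0 ≤ ∫ R : OG n, ((M *ᵥ v) ⬝ᵥ ((R : Matrix (Fin n) (Fin n) ℝ) *ᵥ (A *ᵥ v)))
      * Real.exp (T * fr M ((R : Matrix (Fin n) (Fin n) ℝ) * A)) ∂μ := by
  set u := M *ᵥ v with hu
  by_cases hq : qm M = 0
  · rw [hq] at hm
    have : u = 0 := dot_self_eq_zero hm
    rw [this]
    simp
  · set c := 2 / qm M with hc
    have hcu : c * (u ⬝ᵥ u) = 2 := by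
      rw [hm, hc]
      field_simp
    set H0 : Matrix (Fin n) (Fin n) ℝ := 1 - c • vecMulVec u u with hH0
    have hH : H0ᵀ * H0 = 1 := refl_orth u c hcu
    have hHs : H0ᵀ = H0 := by
      rw [hH0, transpose_sub, transpose_one, transpose_smul, transpose_vecMulVec]
    have hH' : H0 * H0ᵀ = 1 := by
      rw [hHs] at hH ⊢
      exact hH
    let H : OG n := ⟨H0, by
      rw [Unitary.mem_iff]
      exact ⟨hH, hH'⟩⟩
    have hHu : H0 *ᵥ u = -u := by
      rw [hH0, sub_mulVec, one_mulVec, smul_mulVec, vecMulVec_mulVec]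
      ext i
      simp only [Pi.sub_apply, Pi.smul_apply, Pi.neg_apply, MulOpposite.smul_eq_mul_unop,
        MulOpposite.unop_op, smul_eq_mul]
      linear_combination (-(u i)) * hcu
    have huM : u ᵥ* M = qm M • v := by
      apply dotProduct_eq
      intro z
      rw [← dotProduct_mulVec, hu, eigen M hv hm z, smul_dotProduct, smul_eq_mul]
    have hHM : H0 * M = M - (2 : ℝ) • vecMulVec u v := by
      rw [hH0, sub_mul, one_mul, smul_mul_assoc, vecMulVec_mul, huM, vecMulVec_smul, smul_smul]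
      congr 2
      rw [hc]
      field_simp
    -- how the two quantities transform
    have hx : ∀ R : OG n, u ⬝ᵥ (((H * R : OG n) : Matrix (Fin n) (Fin n) ℝ) *ᵥ (A *ᵥ v))
        = -(u ⬝ᵥ ((R : Matrix (Fin n) (Fin n) ℝ) *ᵥ (A *ᵥ v))) := by
      intro R
      have h1 : ((H * R : OG n) : Matrix (Fin n) (Fin n) ℝ) = H0 * R := rfl
      rw [h1, ← mulVec_mulVec, dotProduct_mulVec, ← mulVec_transpose, hHs, hHu, neg_dotProduct]
    have hf : ∀ R : OG n, fr M (((H * R : OG n) : Matrix (Fin n) (Fin n) ℝ) * A)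
        = fr M ((R : Matrix (Fin n) (Fin n) ℝ) * A)
          - 2 * (u ⬝ᵥ ((R : Matrix (Fin n) (Fin n) ℝ) *ᵥ (A *ᵥ v))) := by
      intro R
      have h1 : ((H * R : OG n) : Matrix (Fin n) (Fin n) ℝ) = H0 * R := rfl
      rw [h1, Matrix.mul_assoc, fr_mul, hHs, hHM, fr_sub_left, fr_smul_left, fr_vecMulVec,
        mulVec_mulVec]
    set x : OG n → ℝ := fun R => u ⬝ᵥ ((R : Matrix (Fin n) (Fin n) ℝ) *ᵥ (A *ᵥ v)) with hxdef
    set F : OG n → ℝ := fun R => fr M ((R : Matrix (Fin n) (Fin n) ℝ) * A) with hFdef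
    have hxc : Continuous x := cont_x _ _
    have hFc : Continuous F := cont_fr_right _ _
    have e1 : ∫ R, x R * Real.exp (T * F R) ∂μ
        = ∫ R, x (H * R) * Real.exp (T * F (H * R)) ∂μ := by
      have hemb : MeasurableEmbedding (fun R : OG n => H * R) := measurableEmbedding_mulLeft H
      exact ((hμ H).integral_comp hemb (fun R => x R * Real.exp (T * F R))).symm
    have e2 : ∫ R, x (H * R) * Real.exp (T * F (H * R)) ∂μ
        = - ∫ R, x R * Real.exp (T * (F R - 2 * x R)) ∂μ := by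
      rw [← integral_neg]
      apply integral_congr_ae
      filter_upwards with R
      have h1 : x (H * R) = - x R := hx R
      have h2 : F (H * R) = F R - 2 * x R := hf R
      rw [h1, h2]
      ring
    have e3 : 0 ≤ ∫ R, x R * Real.exp (T * F R) ∂μ
        - ∫ R, x R * Real.exp (T * (F R - 2 * x R)) ∂μ := by
      rw [← integral_sub (int_cont μ (by fun_prop)) (int_cont μ (by fun_prop))]
      apply integral_nonneg
      intro R
      simp only [Pi.zero_apply]
      rw [← mul_sub]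
      rcases le_total 0 (x R) with h | h
      · apply mul_nonneg h
        rw [sub_nonneg]
        apply Real.exp_le_exp.2
        apply mul_le_mul_of_nonneg_left _ hT
        linarith
      · apply mul_nonneg_of_nonpos_of_nonpos h
        rw [sub_nonpos]
        apply Real.exp_le_exp.2
        apply mul_le_mul_of_nonneg_left _ hT
        linarith
    change 0 ≤ ∫ R, x R * Real.exp (T * F R) ∂μ
    linarith [e1, e2, e3]

/-! ### The averaged inequality for a fixed matrix -/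

/-- The constant of the second order term. -/
noncomputable def CC (a b N : ℝ) : ℝ := 2 / b * N + (8 * (a + b) * N + 2 * N ^ 2) / b ^ 2

lemma CC_nonneg {a b N : ℝ} (ha : 0 ≤ a) (hb : 0 < b) (hN : 0 ≤ N) : 0 ≤ CC a b N := by
  unfold CC
  positivity

lemma mulVec_frob {n : ℕ} (A : Matrix (Fin n) (Fin n) ℝ) {v : Fin n → ℝ} (hv : v ⬝ᵥ v = 1) :
    (A *ᵥ v) ⬝ᵥ (A *ᵥ v) ≤ fr A A := by
  have h : ∀ i, (A *ᵥ v) i * (A *ᵥ v) i ≤ ∑ j, A i j * A i j := by
    intro i
    have := dot_sq_le (fun j => A i j) v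
    rw [hv, mul_one, sq] at this
    exact this
  exact Finset.sum_le_sum fun i _ => h i

lemma orth_dot {n : ℕ} (R : OG n) (w : Fin n → ℝ) :
    ((R : Matrix (Fin n) (Fin n) ℝ) *ᵥ w) ⬝ᵥ ((R : Matrix (Fin n) (Fin n) ℝ) *ᵥ w) = w ⬝ᵥ w := by
  rw [dotProduct_mulVec, ← mulVec_transpose, mulVec_mulVec, OG_mul, one_mulVec]

lemma fixedM {m : ℕ} (μ : Measure (OG (m + 1))) [IsProbabilityMeasure μ]
    (hμ : ∀ H : OG (m + 1), MeasurePreserving (fun R => H * R) μ μ)
    (M A : Matrix (Fin (m + 1)) (Fin (m + 1)) ℝ) (a b T δ : ℝ) (ha : 0 ≤ a) (hb : 0 < b)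
    (hT : 0 ≤ T) (hδ : 0 ≤ δ) (hδ1 : δ ≤ 1) :
    ∫ R : OG (m + 1), (theta a b (qm M)
        - theta a b (qm (M - δ • ((R : Matrix (Fin (m + 1)) (Fin (m + 1)) ℝ) * A))))
      * Real.exp (T * fr M ((R : Matrix (Fin (m + 1)) (Fin (m + 1)) ℝ) * A)) ∂μ
    ≤ δ ^ 2 * CC a b (fr A A)
      * ∫ R : OG (m + 1), Real.exp (T * fr M ((R : Matrix (Fin (m + 1)) (Fin (m + 1)) ℝ) * A))
        ∂μ := by
  have hN := fr_nonneg A
  have hC := CC_nonneg ha hb hN
  have hI : 0 ≤ ∫ R : OG (m + 1),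
      Real.exp (T * fr M ((R : Matrix (Fin (m + 1)) (Fin (m + 1)) ℝ) * A)) ∂μ :=
    integral_nonneg fun R => (Real.exp_pos _).le
  rcases le_or_gt (a + b) (qm M) with hq | hq
  · refine le_trans ?_ (by positivity :
      (0 : ℝ) ≤ δ ^ 2 * CC a b (fr A A) * ∫ R : OG (m + 1),
        Real.exp (T * fr M ((R : Matrix (Fin (m + 1)) (Fin (m + 1)) ℝ) * A)) ∂μ)
    apply integral_nonpos
    intro R
    simp only [Pi.zero_apply]
    rw [theta_zero a hb hq, zero_sub, neg_mul]
    apply neg_nonpos_of_nonneg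
    exact mul_nonneg (theta_nonneg _ _ _) (Real.exp_pos _).le
  · obtain ⟨v, hv, hm⟩ := exists_min M
    set w := 2 * max (qm M - a) 0 / b ^ 2 with hw
    have hw0 : 0 ≤ w := by
      rw [hw]
      have : 0 ≤ max (qm M - a) 0 := le_max_right _ _
      positivity
    have hw1 : w ≤ 2 / b := by
      rw [hw, div_le_div_iff₀ (by positivity) hb]
      have : max (qm M - a) 0 ≤ b := max_le (by linarith) hb.le
      nlinarith
    have hpt : ∀ R : OG (m + 1), (theta a b (qm M)
        - theta a b (qm (M - δ • ((R : Matrix (Fin (m + 1)) (Fin (m + 1)) ℝ) * A))))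
        ≤ -(2 * δ * w) * ((M *ᵥ v) ⬝ᵥ
          ((R : Matrix (Fin (m + 1)) (Fin (m + 1)) ℝ) *ᵥ (A *ᵥ v))) + δ ^ 2 * CC a b (fr A A) := by
      intro R
      set x := (M *ᵥ v) ⬝ᵥ ((R : Matrix (Fin (m + 1)) (Fin (m + 1)) ℝ) *ᵥ (A *ᵥ v)) with hx
      set s := (A *ᵥ v) ⬝ᵥ (A *ᵥ v) with hs
      have hs0 : 0 ≤ s := dot_self_nonneg _
      have hsN : s ≤ fr A A := mulVec_frob A hv
      have hx2 : x ^ 2 ≤ (a + b) * fr A A := by
        have h1 := dot_sq_le (M *ᵥ v) ((R : Matrix (Fin (m + 1)) (Fin (m + 1)) ℝ) *ᵥ (A *ᵥ v))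
        rw [hm, orth_dot] at h1
        refine le_trans h1 ?_
        apply mul_le_mul hq.le hsN hs0 (by positivity)
      set h := -(2 * δ * x) + δ ^ 2 * s with hh
      have h1 : qm (M - δ • ((R : Matrix (Fin (m + 1)) (Fin (m + 1)) ℝ) * A)) ≤ qm M + h := by
        refine le_trans (qm_le _ hv) ?_
        rw [sub_mulVec, smul_mulVec, ← mulVec_mulVec]
        simp only [sub_dotProduct, dotProduct_sub, smul_dotProduct, dotProduct_smul, smul_eq_mul]
        rw [hm, orth_dot, dotProduct_comm _ (M *ᵥ v), ← hx, ← hs, hh]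
        apply le_of_eq
        ring
      have h2 := theta_anti a b h1
      have h3 := theta_lower a h hb hq
      have h4 : h ^ 2 ≤ δ ^ 2 * (8 * (a + b) * fr A A + 2 * (fr A A) ^ 2) := by
        have e : h ^ 2 = δ ^ 2 * (-(2 * x) + δ * s) ^ 2 := by rw [hh]; ring
        rw [e]
        apply mul_le_mul_of_nonneg_left _ (sq_nonneg δ)
        have h5 : (-(2 * x) + δ * s) ^ 2 ≤ 8 * x ^ 2 + 2 * (δ * s) ^ 2 := by
          nlinarith [sq_nonneg (2 * x + δ * s)]
        have h6 : (δ * s) ^ 2 ≤ (fr A A) ^ 2 := by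
          apply pow_le_pow_left₀ (by positivity)
          nlinarith
        linarith
      have h7 : h ^ 2 / b ^ 2 ≤ δ ^ 2 * ((8 * (a + b) * fr A A + 2 * (fr A A) ^ 2) / b ^ 2) := by
        rw [← mul_div_assoc]
        exact div_le_div_of_nonneg_right h4 (sq_nonneg b)
      have h8 : w * (δ ^ 2 * s) ≤ δ ^ 2 * (2 / b * fr A A) := by
        have : w * s ≤ 2 / b * fr A A := mul_le_mul hw1 hsN hs0 (by positivity)
        nlinarith [mul_le_mul_of_nonneg_left this (sq_nonneg δ)]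
      have h9 : w * h = -(2 * δ * w) * x + w * (δ ^ 2 * s) := by rw [hh]; ring
      unfold CC
      rw [← hw] at h3
      linarith
    have hcont1 : Continuous (fun R : OG (m + 1) =>
        Real.exp (T * fr M ((R : Matrix (Fin (m + 1)) (Fin (m + 1)) ℝ) * A))) := by
      have := cont_fr_right M A
      fun_prop
    have hcont2 : Continuous (fun R : OG (m + 1) =>
        ((M *ᵥ v) ⬝ᵥ ((R : Matrix (Fin (m + 1)) (Fin (m + 1)) ℝ) *ᵥ (A *ᵥ v)))) := cont_x _ _
    have hcont3 : Continuous (fun R : OG (m + 1) =>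
        theta a b (qm (M - δ • ((R : Matrix (Fin (m + 1)) (Fin (m + 1)) ℝ) * A)))) := by
      apply (continuous_theta a b).comp
      apply continuous_qm.comp
      exact continuous_const.sub ((continuous_subtype_val.mul continuous_const).const_smul δ)
    calc ∫ R : OG (m + 1), (theta a b (qm M)
        - theta a b (qm (M - δ • ((R : Matrix (Fin (m + 1)) (Fin (m + 1)) ℝ) * A))))
      * Real.exp (T * fr M ((R : Matrix (Fin (m + 1)) (Fin (m + 1)) ℝ) * A)) ∂μ
        ≤ ∫ R : OG (m + 1), (-(2 * δ * w) * (((M *ᵥ v) ⬝ᵥ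
          ((R : Matrix (Fin (m + 1)) (Fin (m + 1)) ℝ) *ᵥ (A *ᵥ v)))
          * Real.exp (T * fr M ((R : Matrix (Fin (m + 1)) (Fin (m + 1)) ℝ) * A)))
          + δ ^ 2 * CC a b (fr A A)
            * Real.exp (T * fr M ((R : Matrix (Fin (m + 1)) (Fin (m + 1)) ℝ) * A))) ∂μ := by
          apply integral_mono (int_cont μ (by fun_prop)) (int_cont μ (by fun_prop))
          intro R
          have h1 := mul_le_mul_of_nonneg_right (hpt R)
            (Real.exp_pos (T * fr M ((R : Matrix (Fin (m + 1)) (Fin (m + 1)) ℝ) * A))).le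
          refine le_trans h1 (le_of_eq ?_)
          ring
      _ = -(2 * δ * w) * (∫ R : OG (m + 1), ((M *ᵥ v) ⬝ᵥ
          ((R : Matrix (Fin (m + 1)) (Fin (m + 1)) ℝ) *ᵥ (A *ᵥ v)))
          * Real.exp (T * fr M ((R : Matrix (Fin (m + 1)) (Fin (m + 1)) ℝ) * A)) ∂μ)
          + δ ^ 2 * CC a b (fr A A) * ∫ R : OG (m + 1),
            Real.exp (T * fr M ((R : Matrix (Fin (m + 1)) (Fin (m + 1)) ℝ) * A)) ∂μ := by
          rw [integral_add (int_cont μ (by fun_prop)) (int_cont μ (by fun_prop)),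
            integral_const_mul, integral_const_mul]
      _ ≤ _ := by
          have h1 := pair_nonneg μ hμ M A hv hm T hT
          have h2 : 0 ≤ 2 * δ * w := by positivity
          nlinarith [mul_nonneg h2 h1]

end Pool.Agent.Y974.SV
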