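import Pool.Agent.Y974.SV.Comp

/-! Small values of `s_min(G)` through `|G⁻¹ η|`. -/

set_option autoImplicit false

namespace Pool.Agent.Y974.SV

open Matrix MeasureTheory ProbabilityTheory Filter Topology

/-- The good event for the pair `(G, η)`. -/
def EE (m : ℕ) (δ κ : ℝ) : Set ((Fin (m + 1) → Fin (m + 1) → ℝ) × (Fin (m + 1) → ℝ)) :=
  {p | ∃ u : Fin (m + 1) → ℝ, u ⬝ᵥ u = 1 ∧ ((of p.1)ᵀ *ᵥ u) ⬝ᵥ ((of p.1)ᵀ *ᵥ u) ≤ qm (of p.1) ∧
    qm (of p.1) ≤ δ ^ 2 * (u ⬝ᵥ p.2) ^ 2 ∧ κ ≤ (u ⬝ᵥ p.2) ^ 2}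

lemma cont_dot {n : ℕ} : Continuous (fun p : (Fin n → ℝ) × (Fin n → ℝ) => p.1 ⬝ᵥ p.2) := by
  unfold dotProduct
  fun_prop

lemma EE_closed (m : ℕ) (δ κ : ℝ) : IsClosed (EE m δ κ) := by
  have hcs : CompactSpace (sph (m + 1)) := isCompact_iff_compactSpace.1 (isCompact_sph (m + 1))
  have hmap : IsClosedMap (Prod.snd : (sph (m + 1)) ×
      ((Fin (m + 1) → Fin (m + 1) → ℝ) × (Fin (m + 1) → ℝ)) → _) := isClosedMap_snd_of_compactSpace
  have hq : Continuous (fun q : (sph (m + 1)) × ((Fin (m + 1) → Fin (m + 1) → ℝ) ×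
      (Fin (m + 1) → ℝ)) => qm (of q.2.1)) := by
    have h : Continuous (fun G : Fin (m + 1) → Fin (m + 1) → ℝ =>
      (of G : Matrix (Fin (m + 1)) (Fin (m + 1)) ℝ)) := continuous_id
    exact (continuous_qm.comp h).comp (continuous_fst.comp continuous_snd)
  have hd : Continuous (fun q : (sph (m + 1)) × ((Fin (m + 1) → Fin (m + 1) → ℝ) ×
      (Fin (m + 1) → ℝ)) => ((q.1 : Fin (m + 1) → ℝ) ⬝ᵥ q.2.2)) :=
    cont_dot.comp ((continuous_subtype_val.comp continuous_fst).prodMk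
      (continuous_snd.comp continuous_snd))
  have hT : Continuous (fun q : (sph (m + 1)) × ((Fin (m + 1) → Fin (m + 1) → ℝ) ×
      (Fin (m + 1) → ℝ)) => ((of q.2.1)ᵀ *ᵥ (q.1 : Fin (m + 1) → ℝ))
        ⬝ᵥ ((of q.2.1)ᵀ *ᵥ (q.1 : Fin (m + 1) → ℝ))) := by
    have h : Continuous (fun G : Fin (m + 1) → Fin (m + 1) → ℝ =>
      (of G : Matrix (Fin (m + 1)) (Fin (m + 1)) ℝ)) := continuous_id
    have h2 : Continuous (fun q : (sph (m + 1)) × ((Fin (m + 1) → Fin (m + 1) → ℝ) ×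
      (Fin (m + 1) → ℝ)) => (of q.2.1 : Matrix (Fin (m + 1)) (Fin (m + 1)) ℝ)ᵀ) :=
      (h.comp (continuous_fst.comp continuous_snd)).matrix_transpose
    exact cont_quad.comp (h2.prodMk (continuous_subtype_val.comp continuous_fst))
  have hcl : IsClosed {q : (sph (m + 1)) × ((Fin (m + 1) → Fin (m + 1) → ℝ) ×
      (Fin (m + 1) → ℝ)) | ((of q.2.1)ᵀ *ᵥ (q.1 : Fin (m + 1) → ℝ))
        ⬝ᵥ ((of q.2.1)ᵀ *ᵥ (q.1 : Fin (m + 1) → ℝ)) ≤ qm (of q.2.1) ∧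
        qm (of q.2.1) ≤ δ ^ 2 * ((q.1 : Fin (m + 1) → ℝ) ⬝ᵥ q.2.2) ^ 2 ∧
        κ ≤ ((q.1 : Fin (m + 1) → ℝ) ⬝ᵥ q.2.2) ^ 2} :=
    (isClosed_le hT hq).inter ((isClosed_le hq (continuous_const.mul (hd.pow 2))).inter
      (isClosed_le continuous_const (hd.pow 2)))
  have := hmap _ hcl
  convert this using 1
  ext p
  constructor
  · rintro ⟨u, hu, h1, h2, h3⟩
    exact ⟨(⟨u, hu⟩, p), ⟨h1, h2, h3⟩, rfl⟩
  · rintro ⟨⟨⟨u, hu⟩, p'⟩, ⟨h1, h2, h3⟩, rfl⟩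
    exact ⟨u, hu, h1, h2, h3⟩

/-- Small ball estimate in one dimension. -/
lemma small_ball {r : ℝ} (hr : 0 ≤ r) :
    gaussianReal 0 1 {g : ℝ | |g| ≤ r} ≤ ENNReal.ofReal (Real.sqrt (2 / Real.pi) * r) := by
  have h1 : {g : ℝ | |g| ≤ r} = Set.Icc (-r) r := by
    ext g
    simp [abs_le]
  rw [h1, gaussianReal_apply_eq_integral 0 one_ne_zero]
  apply ENNReal.ofReal_le_ofReal
  have h2 : ∀ x : ℝ, gaussianPDFReal 0 1 x ≤ (Real.sqrt (2 * Real.pi))⁻¹ := by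
    intro x
    unfold gaussianPDFReal
    have : Real.exp (-(x - 0) ^ 2 / (2 * ((1 : NNReal) : ℝ))) ≤ 1 := by
      apply Real.exp_le_one_iff.2
      have : 0 ≤ (x - 0) ^ 2 := sq_nonneg _
      have h2 : (2 * ((1 : NNReal) : ℝ)) = 2 := by simp
      rw [h2]
      linarith
    calc _ ≤ (Real.sqrt (2 * Real.pi * ((1 : NNReal) : ℝ)))⁻¹ * 1 :=
          mul_le_mul_of_nonneg_left this (by positivity)
      _ = _ := by simp
  have h3 : ∫ x in Set.Icc (-r) r, gaussianPDFReal 0 1 x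
      ≤ ∫ x in Set.Icc (-r) r, (Real.sqrt (2 * Real.pi))⁻¹ := by
    apply setIntegral_mono (integrable_gaussianPDFReal 0 1).integrableOn
      (integrableOn_const (by simp)) 
    exact h2
  refine h3.trans (le_of_eq ?_)
  rw [setIntegral_const, Measure.real, Real.volume_Icc, ENNReal.toReal_ofReal (by linarith)]
  rw [smul_eq_mul]
  have h4 : Real.sqrt (2 / Real.pi) = 2 * (Real.sqrt (2 * Real.pi))⁻¹ := by
    rw [eq_comm, ← div_eq_mul_inv, div_eq_iff (by positivity), ← Real.sqrt_mul (by positivity)]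
    rw [show 2 / Real.pi * (2 * Real.pi) = 2 ^ 2 by field_simp]
    rw [Real.sqrt_sq (by norm_num)]
  rw [h4]
  ring

/-- The upper bound for fixed `η`. -/
lemma upper (m : ℕ) {δ κ : ℝ} (hδ : 0 < δ) (hκ : 0 < κ) (η : Fin (m + 1) → ℝ) :
    g2 (m + 1) ((fun G => (G, η)) ⁻¹' (EE m δ κ))
      ≤ ENNReal.ofReal (Real.sqrt (2 / Real.pi) * (δ * Real.sqrt (η ⬝ᵥ η))) := by
  by_cases hη : η = 0
  · have : ((fun G : Fin (m + 1) → Fin (m + 1) → ℝ => (G, η)) ⁻¹' (EE m δ κ)) = ∅ := by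
      ext G
      simp only [Set.mem_preimage, Set.mem_empty_iff_false, iff_false]
      rintro ⟨u, _, _, _, h3⟩
      rw [hη] at h3
      simp at h3
      linarith
    rw [this]
    simp
  have hp := dot_self_pos hη
  have hs := Real.sqrt_pos.2 hp
  have hss := Real.mul_self_sqrt hp.le
  set s := Real.sqrt (η ⬝ᵥ η) with hsd
  have he : (s⁻¹ • η) ⬝ᵥ (s⁻¹ • η) = 1 := by
    rw [smul_dotProduct, dotProduct_smul, smul_eq_mul, smul_eq_mul, ← hss]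
    field_simp
  obtain ⟨R, hR, hR0⟩ := exists_orth _ he
  have hR' : R * Rᵀ = 1 := mul_eq_one_comm.1 hR
  have hRT' : Rᵀ * (Rᵀ)ᵀ = 1 := by rw [transpose_transpose]; exact hR
  have hS : MeasurableSet ((fun G : Fin (m + 1) → Fin (m + 1) → ℝ => (G, η)) ⁻¹' (EE m δ κ)) :=
    ((EE_closed m δ κ).preimage (by fun_prop)).measurableSet
  rw [← (rot Rᵀ hRT').measure_preimage hS.nullMeasurableSet]
  have hS2 : MeasurableSet (lmul Rᵀ ⁻¹' ((fun G : Fin (m + 1) → Fin (m + 1) → ℝ => (G, η)) ⁻¹'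
      (EE m δ κ))) := (continuous_lmul Rᵀ).measurable hS
  rw [split_row hS2]
  have key : ∀ r : Fin m → Fin (m + 1) → ℝ,
      g1 (m + 1) {x | (Fin.cons x r : Fin (m + 1) → Fin (m + 1) → ℝ) ∈ (lmul Rᵀ ⁻¹'
        ((fun G : Fin (m + 1) → Fin (m + 1) → ℝ => (G, η)) ⁻¹' (EE m δ κ)))}
      ≤ ENNReal.ofReal (Real.sqrt (2 / Real.pi) * (δ * s)) := by
    intro r
    obtain ⟨w, hw, hwr⟩ := perp r
    refine le_trans ?_ (small_ball (r := δ * s) (by positivity))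
    have h2 : MeasurableSet {g : ℝ | |g| ≤ δ * s} :=
      (isClosed_le continuous_abs continuous_const).measurableSet
    rw [← (marg w hw).measure_preimage h2.nullMeasurableSet]
    apply measure_mono
    intro x hx
    simp only [Set.mem_setOf_eq, Set.mem_preimage] at hx ⊢
    obtain ⟨u, hu, h1, h2, h3⟩ := hx
    simp only [of_lmul] at h1 h2 h3
    set X : Matrix (Fin (m + 1)) (Fin (m + 1)) ℝ := of (Fin.cons x r) with hX
    -- `X w = (w ⬝ x) e₀`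
    have hXw : X *ᵥ w = (w ⬝ᵥ x) • (Pi.single 0 1 : Fin (m + 1) → ℝ) := by
      ext i
      refine Fin.cases ?_ (fun i => ?_) i
      · have : (X *ᵥ w) 0 = x ⬝ᵥ w := by simp [hX, mulVec]
        rw [this, dotProduct_comm]
        simp
      · have : (X *ᵥ w) i.succ = r i ⬝ᵥ w := by simp [hX, mulVec]
        rw [this, hwr i]
        simp
    have hRw : (Rᵀ * X) *ᵥ w = (w ⬝ᵥ x) • (s⁻¹ • η) := by
      rw [← mulVec_mulVec, hXw, mulVec_smul]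
      congr 1
      rw [mulVec_single_one]
      ext j
      have : Rᵀ j 0 = (s⁻¹ • η) j := by
        rw [transpose_apply, ← hR0]
      exact this
    have h5 : (w ⬝ᵥ x) * s⁻¹ * (u ⬝ᵥ η) = w ⬝ᵥ ((Rᵀ * X)ᵀ *ᵥ u) := by
      rw [mulVec_transpose, dotProduct_comm w (u ᵥ* (Rᵀ * X)), ← dotProduct_mulVec, hRw,
        dotProduct_smul, dotProduct_smul, smul_eq_mul, smul_eq_mul]
      ring
    have h6 : ((w ⬝ᵥ x) * s⁻¹ * (u ⬝ᵥ η)) ^ 2 ≤ δ ^ 2 * (u ⬝ᵥ η) ^ 2 := by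
      rw [h5]
      have := dot_sq_le w ((Rᵀ * X)ᵀ *ᵥ u)
      rw [hw, one_mul] at this
      exact (this.trans h1).trans h2
    have h7 : 0 < (u ⬝ᵥ η) ^ 2 := hκ.trans_le h3
    have h8 : ((w ⬝ᵥ x) * s⁻¹) ^ 2 ≤ δ ^ 2 := by
      rw [mul_pow] at h6
      exact le_of_mul_le_mul_right h6 h7
    have h9 : |(w ⬝ᵥ x) * s⁻¹| ≤ δ := abs_le_of_sq_le_sq h8 hδ.le
    rw [abs_mul, abs_inv, abs_of_pos hs, ← div_eq_mul_inv, div_le_iff₀ hs] at h9
    exact h9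
  refine (lintegral_mono key).trans (le_of_eq ?_)
  simp

end Pool.Agent.Y974.SV
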